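import Mathlib
import Pool.Graph.R_pool_sql_team_seeded_3dad9d7b.NH32.GK12
import Pool.Graph.R_pool_sql_team_seeded_3dad9d7b.NH32.GK7
import Pool.Graph.R_pool_sql_team_seeded_3dad9d7b.NH32.GK13

/-!
# Families of involutions with bounded multiplicities
-/

set_option linter.unusedSectionVars false

namespace Pool.Agent.H17.Bn

open Matrix Module Pool.Agent.NH32 Pool.Agent.W437.HC Pool.Agent.W437.HD Pool.Agent.TH504.CB
  Pool.Agent.Y90
open Pool.Agent.W548.Odd hiding cv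

noncomputable section

/-- The multiplicities of the eigenvalues `1` and `-1` of all members are at most `N`. -/
def Bd (N : ℕ) {d : ℕ} (Δ : (ℂ ≃+* ℂ) → Matrix (Fin d) (Fin d) ℂ) : Prop :=
  ∀ σ, (1 + Δ σ).rank ≤ N ∧ (1 - Δ σ).rank ≤ N

variable {N d : ℕ} {Δ : (ℂ ≃+* ℂ) → Matrix (Fin d) (Fin d) ℂ}

/-- Submodules. -/
theorem Bd.sub (h : Bd N Δ) {d' : ℕ} {Δ' : (ℂ ≃+* ℂ) → Matrix (Fin d') (Fin d') ℂ} (hI : IrD Δ')
    {G : Matrix (Fin d) (Fin d') ℂ} (hG : G ≠ 0) (hi : ∀ σ, Δ σ * G = G * Δ' σ) : Bd N Δ' := by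
  have h1 := GK13.schur_inj hI hG hi
  obtain ⟨g, hg⟩ := LinearMap.exists_leftInverse_of_injective _ (LinearMap.ker_eq_bot.2 h1)
  obtain ⟨Q, hQ⟩ : ∃ Q : Matrix (Fin d') (Fin d) ℂ, Q * G = 1 := by
    refine ⟨LinearMap.toMatrix' g, ?_⟩
    have h2 := congrArg LinearMap.toMatrix' hg
    rw [LinearMap.toMatrix'_comp, LinearMap.toMatrix'_id] at h2
    rw [← h2]
    congr 1
    exact (LinearMap.toMatrix'_toLin' G).symm
  have key : ∀ A : Matrix (Fin d) (Fin d) ℂ, ∀ A' : Matrix (Fin d') (Fin d') ℂ, A * G = G * A' →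
      A'.rank ≤ A.rank := by
    intro A A' hA
    have h2 : A' = Q * (A * G) := by
      rw [hA, ← Matrix.mul_assoc, hQ, Matrix.one_mul]
    rw [h2]
    exact (Matrix.rank_mul_le_right _ _).trans (Matrix.rank_mul_le_left _ _)
  intro σ
  refine ⟨(key (1 + Δ σ) (1 + Δ' σ) ?_).trans (h σ).1, (key (1 - Δ σ) (1 - Δ' σ) ?_).trans (h σ).2⟩
  · rw [Matrix.add_mul, Matrix.mul_add, hi, Matrix.one_mul, Matrix.mul_one]
  · rw [Matrix.sub_mul, Matrix.mul_sub, hi, Matrix.one_mul, Matrix.mul_one]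

theorem rank_map_le (ρ : ℂ ≃+* ℂ) (A : Matrix (Fin d) (Fin d) ℂ) : (A.map ρ).rank ≤ A.rank := by
  obtain ⟨r, B, C, hA, hr⟩ : ∃ (r : ℕ) (B : Matrix (Fin d) (Fin r) ℂ) (C : Matrix (Fin r) (Fin d) ℂ),
      A = B * C ∧ r = A.rank := by
    let V := LinearMap.range A.mulVecLin
    let b := Module.finBasis ℂ V
    have hv : ∀ k, A.mulVecLin (Pi.single k 1) ∈ V := fun k => ⟨_, rfl⟩
    refine ⟨finrank ℂ V, Matrix.of fun i j => (b j : Fin d → ℂ) i,
      Matrix.of fun j k => b.repr ⟨A.mulVecLin (Pi.single k 1), hv k⟩ j, ?_, rfl⟩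
    ext i k
    have h1 := b.sum_repr ⟨A.mulVecLin (Pi.single k 1), hv k⟩
    have h2 := congrArg (fun v : V => (v : Fin d → ℂ) i) h1
    beta_reduce at h2
    rw [Submodule.coe_sum, Finset.sum_apply] at h2
    have h3 : (A.mulVecLin (Pi.single k 1)) i = A i k := by
      rw [Matrix.mulVecLin_apply, Matrix.mulVec_single_one]
      rfl
    rw [Matrix.mul_apply]
    refine (h3.symm.trans h2.symm).trans ?_
    refine Finset.sum_congr rfl fun j _ => ?_
    rw [Matrix.of_apply, Matrix.of_apply, mul_comm]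
    rfl
  rw [← hr, hA, GK7.map_mul']
  refine (Matrix.rank_mul_le_left _ _).trans ?_
  exact (Matrix.rank_le_width _)

theorem Bd.cjf (h : Bd N Δ) (ρ : ℂ ≃+* ℂ) : Bd N (Cjf Δ ρ) := by
  intro σ
  have h1 : 1 + Cjf Δ ρ σ = (1 + Δ (σ.trans ρ.symm)).map ρ := by
    rw [GK7.map_add', GK7.map_one']
    rfl
  have h2 : 1 - Cjf Δ ρ σ = (1 - Δ (σ.trans ρ.symm)).map ρ := by
    rw [GK7.map_sub', GK7.map_one']
    rfl
  rw [h1, h2]
  exact ⟨(rank_map_le _ _).trans (h _).1, (rank_map_le _ _).trans (h _).2⟩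

theorem Bd.tw (h : Bd N Δ) : Bd N (twD Δ) := by
  intro σ
  unfold twD
  split_ifs
  · rw [← sub_eq_add_neg, sub_neg_eq_add]
    exact ⟨(h σ).2, (h σ).1⟩
  · exact h σ

theorem Bd.iso {Δ' : (ℂ ≃+* ℂ) → Matrix (Fin d) (Fin d) ℂ} (hI : IrD Δ') (h : Bd N Δ)
    (hi : IsoD Δ Δ') : Bd N Δ' := by
  obtain ⟨G, Gi, h1, h2, h3⟩ := GK13.iso_symm hi
  refine h.sub hI (G := G) ?_ fun σ => h3 σ
  rintro rfl
  have hd := hI.1
  rw [Matrix.zero_mul] at h1
  have h4 := congrFun (congrFun h1 ⟨0, hd⟩) ⟨0, hd⟩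
  rw [Matrix.one_apply_eq] at h4
  exact zero_ne_one h4

theorem bd_le (hd : d ≤ N) : Bd N Δ := fun _ =>
  ⟨(Matrix.rank_le_width _).trans hd, (Matrix.rank_le_width _).trans hd⟩

/-- The rank of an idempotent is its trace. -/
theorem rank_idem {e : Matrix (Fin d) (Fin d) ℂ} (he : e * e = e) : trace e = (e.rank : ℂ) := by
  obtain ⟨r, P, Q, h1, h2⟩ := WJ2.idem_fac he
  have h3 : trace e = r := by
    rw [← h1, trace_mul_comm, h2, trace_one, Fintype.card_fin]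
  have h4 : e.rank ≤ r := by
    rw [← h1]
    exact (Matrix.rank_mul_le_left _ _).trans (Matrix.rank_le_width _)
  have h5 : r ≤ e.rank := by
    have h6 : (1 : Matrix (Fin r) (Fin r) ℂ) = Q * e * P := by
      rw [← h1]
      calc (1 : Matrix (Fin r) (Fin r) ℂ) = (Q * P) * (Q * P) := by rw [h2, Matrix.one_mul]
        _ = _ := by simp only [Matrix.mul_assoc]
    have h7 : (1 : Matrix (Fin r) (Fin r) ℂ).rank = r := by
      rw [Matrix.rank_one, Fintype.card_fin]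
    rw [← h7, h6]
    exact (Matrix.rank_mul_le_left _ _).trans (Matrix.rank_mul_le_right _ _)
  rw [h3, le_antisymm h4 h5]

theorem inv_idem {D : Matrix (Fin d) (Fin d) ℂ} (hD : D * D = 1) {s : ℂ} (hs : s * s = 1) :
    ((2 : ℂ)⁻¹ • (1 + s • D)) * ((2 : ℂ)⁻¹ • (1 + s • D)) = (2 : ℂ)⁻¹ • (1 + s • D) := by
  rw [Matrix.smul_mul, Matrix.mul_smul, add_mul, mul_add, mul_add, Matrix.mul_smul,
    Matrix.smul_mul, Matrix.smul_mul, Matrix.mul_smul, hD, smul_smul s s, hs,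
    one_smul]
  simp only [Matrix.one_mul, Matrix.mul_one]
  have h4 : 1 + s • D + (s • D + 1) = (2 : ℂ) • (1 + s • D) := by
    rw [two_smul]
    abel
  rw [h4, smul_smul, smul_smul]
  norm_num

theorem rank_half (A : Matrix (Fin d) (Fin d) ℂ) : ((2 : ℂ)⁻¹ • A).rank = A.rank := by
  have key : ∀ (c : ℂ) (A : Matrix (Fin d) (Fin d) ℂ), (c • A).rank ≤ A.rank := by
    intro c A
    have h1 : c • A = A * (c • 1) := by rw [Matrix.mul_smul, Matrix.mul_one]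
    rw [h1]
    exact Matrix.rank_mul_le_left _ _
  refine le_antisymm (key _ _) ?_
  have h1 : A = (2 : ℂ) • ((2 : ℂ)⁻¹ • A) := by
    rw [smul_smul]
    norm_num
  conv_lhs => rw [h1]
  exact key _ _

/-- The trace of an involution. -/
theorem trace_inv {D : Matrix (Fin d) (Fin d) ℂ} (hD : D * D = 1) :
    (d : ℂ) + trace D = 2 * ((1 + D).rank : ℂ) ∧ (d : ℂ) - trace D = 2 * ((1 - D).rank : ℂ) := by
  have h1 := rank_idem (inv_idem hD (s := 1) (by norm_num))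
  have h2 := rank_idem (inv_idem hD (s := -1) (by norm_num))
  rw [rank_half, trace_smul, trace_add, trace_one, Fintype.card_fin, trace_smul, smul_eq_mul,
    smul_eq_mul, one_smul] at h1
  rw [rank_half, trace_smul, trace_add, trace_one, Fintype.card_fin, trace_smul, smul_eq_mul,
    smul_eq_mul, neg_one_smul, ← sub_eq_add_neg] at h2
  exact ⟨by linear_combination 2 * h1, by linear_combination 2 * h2⟩

/-- The bounds in terms of the trace. -/
theorem Bd.num (h : Bd N Δ) (hs : ∀ σ, Δ σ * Δ σ = 1) (σ : ℂ ≃+* ℂ) {p : ℕ}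
    (hp : trace (Δ σ) = 2 * (p : ℂ) - d) : p ≤ N ∧ d ≤ N + p := by
  obtain ⟨h1, h2⟩ := trace_inv (hs σ)
  obtain ⟨h3, h4⟩ := h σ
  rw [hp] at h1 h2
  have h5 : (p : ℂ) = (1 + Δ σ).rank := by linear_combination (1/2 : ℂ) * h1
  have h6 : (d : ℂ) = (1 - Δ σ).rank + p := by linear_combination (1/2 : ℂ) * h2
  have h7 : p = (1 + Δ σ).rank := by exact_mod_cast h5
  have h8 : d = (1 - Δ σ).rank + p := by exact_mod_cast h6
  omega

theorem Bd.dim (h : Bd N Δ) (hs : ∀ σ, Δ σ * Δ σ = 1) : d ≤ 2 * N := by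
  obtain ⟨h1, h2⟩ := trace_inv (hs (RingEquiv.refl ℂ))
  obtain ⟨h3, h4⟩ := h (RingEquiv.refl ℂ)
  have h5 : (d : ℂ) = (1 + Δ (RingEquiv.refl ℂ)).rank + (1 - Δ (RingEquiv.refl ℂ)).rank := by
    linear_combination (1/2 : ℂ) * h1 + (1/2 : ℂ) * h2
  have h6 : d = (1 + Δ (RingEquiv.refl ℂ)).rank + (1 - Δ (RingEquiv.refl ℂ)).rank := by
    exact_mod_cast h5
  omega

end

end Pool.Agent.H17.Bn
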