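import Mathlib
import Pool.Graph.R_pool_sql_team_seeded_3dad9d7b.NH32.GK7
import Pool.Agent.H17.Bn.Bd

/-!
# The decomposable case, with a bound for the multiplicities

The proof of `r1_bd` is the proof of `Pool.Agent.NH32.r1_of` with an additional conclusion.
-/

set_option linter.unusedSectionVars false

namespace Pool.Agent.H17.Bn

open Matrix Module Pool.Agent.NH32 Pool.Agent.NH32.GK7
open scoped ComplexOrder

noncomputable section

/-- Reduction to good families of smaller dimension, whose constituents have bounded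
multiplicities. -/
def RedB (N : ℕ) {d : ℕ} (Δ : (ℂ ≃+* ℂ) → Matrix (Fin d) (Fin d) ℂ) : Prop :=
  ∃ (d₁ d₂ : ℕ) (Δ₁ : (ℂ ≃+* ℂ) → Matrix (Fin d₁) (Fin d₁) ℂ)
    (Δ₂ : (ℂ ≃+* ℂ) → Matrix (Fin d₂) (Fin d₂) ℂ) (F : (ℂ ≃+* ℂ) → ℤ), 0 < d₁ ∧ 0 < d₂ ∧ d₁ < d ∧
    d₂ < d ∧ Gd Δ₁ ∧ Gd Δ₂ ∧ (∀ σ, F σ = 1 ∨ F σ = -1) ∧ Gd (lineD F) ∧ RedD Δ Δ₁ Δ₂ F ∧
    (∀ (d' : ℕ) (Δ' : (ℂ ≃+* ℂ) → Matrix (Fin d') (Fin d') ℂ), IrD Δ' → ∀ (ρ : ℂ ≃+* ℂ)
      (G : Matrix (Fin d₁) (Fin d') ℂ), G ≠ 0 → (∀ σ, Cjf Δ₁ ρ σ * G = G * Δ' σ) → Bd N Δ') ∧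
    ∀ (d' : ℕ) (Δ' : (ℂ ≃+* ℂ) → Matrix (Fin d') (Fin d') ℂ), IrD Δ' → ∀ (ρ : ℂ ≃+* ℂ)
      (G : Matrix (Fin d₂) (Fin d') ℂ), G ≠ 0 → (∀ σ, Cjf Δ₂ ρ σ * G = G * Δ' σ) → Bd N Δ'

/-- The constituents of the restricted families have at most half the dimension. -/
theorem half_dim {d : ℕ} {Δ : (ℂ ≃+* ℂ) → Matrix (Fin d) (Fin d) ℂ} (hI : IrD Δ)
    {J : Set (ℂ ≃+* ℂ)} (hJ : JP Δ J) {m : ℕ} {P : Matrix (Fin d) (Fin m) ℂ}
    {Q : Matrix (Fin m) (Fin d) ℂ} (hQP : Q * P = 1)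
    (hst : ∀ σ ∈ J, Δ σ * P = P * (Q * Δ σ * P)) (hmd : m < d) {d' : ℕ}
    {Δ' : (ℂ ≃+* ℂ) → Matrix (Fin d') (Fin d') ℂ} (hI' : IrD Δ') {ρ : ℂ ≃+* ℂ}
    {G : Matrix (Fin m) (Fin d') ℂ} (hG0 : G ≠ 0)
    (hGi : ∀ σ, Cjf (fam Δ J P Q) ρ σ * G = G * Δ' σ) : 2 * d' ≤ d := by
  -- the conjugate embedding
  have hinj := GK13.schur_inj hI' hG0 hGi
  obtain ⟨R, hR⟩ : ∃ R : Matrix (Fin d') (Fin m) ℂ, R * G = 1 := by
    obtain ⟨g, hg⟩ := LinearMap.exists_leftInverse_of_injective _ (LinearMap.ker_eq_bot.2 hinj)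
    refine ⟨LinearMap.toMatrix' g, ?_⟩
    have h2 := congrArg LinearMap.toMatrix' hg
    rw [LinearMap.toMatrix'_comp, LinearMap.toMatrix'_id] at h2
    rw [← h2]
    congr 1
    exact (LinearMap.toMatrix'_toLin' G).symm
  obtain ⟨G₁, hG₁⟩ : ∃ G₁, G₁ = G.map ρ.symm := ⟨_, rfl⟩
  obtain ⟨R₁, hR₁⟩ : ∃ R₁, R₁ = R.map ρ.symm := ⟨_, rfl⟩
  have hRG : R₁ * G₁ = 1 := by
    rw [hG₁, hR₁, ← map_mul', hR, map_one']
  let E : (ℂ ≃+* ℂ) → Matrix (Fin d') (Fin d') ℂ := fun σ => (Δ' (σ.trans ρ)).map ρ.symm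
  have hE : ∀ σ, fam Δ J P Q σ * G₁ = G₁ * E σ := by
    intro σ
    have h1 := hGi (σ.trans ρ)
    have h2 : Cjf (fam Δ J P Q) ρ (σ.trans ρ) = (fam Δ J P Q σ).map ρ := by
      have h3 : (σ.trans ρ).trans ρ.symm = σ := by
        ext z
        simp
      unfold Cjf
      rw [h3]
    rw [h2] at h1
    have h4 := congrArg (fun M : Matrix (Fin m) (Fin d') ℂ => M.map ρ.symm) h1
    beta_reduce at h4
    rw [map_mul', map_mul', map_symm_map] at h4
    rw [hG₁]
    exact h4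
  -- the embedding in the module of `Δ`
  obtain ⟨V, hV⟩ : ∃ V, V = P * G₁ := ⟨_, rfl⟩
  have hVi : R₁ * Q * V = 1 := by
    rw [hV, ← Matrix.mul_assoc, Matrix.mul_assoc R₁ Q P, hQP, Matrix.mul_one, hRG]
  have hVJ : ∀ σ ∈ J, Δ σ * V = V * E σ := by
    intro σ hσ
    have h1 := hE σ
    rw [fam_pos hσ] at h1
    rw [hV, ← Matrix.mul_assoc, hst σ hσ, Matrix.mul_assoc P (Q * Δ σ * P) G₁, h1,
      Matrix.mul_assoc]
  have hEs : ∀ σ, σ ∉ J → E σ = (eps σ : ℂ) • 1 := by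
    intro σ hσ
    have h1 := hE σ
    rw [fam_neg hσ, Matrix.smul_mul, Matrix.one_mul] at h1
    have h2 : R₁ * (G₁ * E σ) = R₁ * ((eps σ : ℂ) • G₁) := by rw [h1]
    rwa [← Matrix.mul_assoc, hRG, Matrix.one_mul, Matrix.mul_smul, hRG] at h2
  have hEI : ∀ W : Submodule ℂ (Fin d' → ℂ), (∀ σ, ∀ w ∈ W, E σ *ᵥ w ∈ W) → W = ⊥ ∨ W = ⊤ := by
    have h1 : E = Cjf Δ' ρ.symm := rfl
    rw [h1]
    intro W hW
    -- the conjugate subspace
    let W' : Submodule ℂ (Fin d' → ℂ) :=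
      { carrier := {w | (fun k => ρ.symm (w k)) ∈ W}
        add_mem' := by
          intro a b ha hb
          have h2 : (fun k => ρ.symm ((a + b) k)) = (fun k => ρ.symm (a k)) +
              fun k => ρ.symm (b k) := by
            funext k
            exact map_add ρ.symm _ _
          show (fun k => ρ.symm ((a + b) k)) ∈ W
          rw [h2]
          exact W.add_mem ha hb
        zero_mem' := by
          have h2 : (fun k => ρ.symm ((0 : Fin d' → ℂ) k)) = 0 := by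
            funext k
            exact map_zero ρ.symm
          show (fun k => ρ.symm ((0 : Fin d' → ℂ) k)) ∈ W
          rw [h2]
          exact W.zero_mem
        smul_mem' := by
          intro c a ha
          have h2 : (fun k => ρ.symm ((c • a) k)) = ρ.symm c • fun k => ρ.symm (a k) := by
            funext k
            exact map_mul ρ.symm _ _
          show (fun k => ρ.symm ((c • a) k)) ∈ W
          rw [h2]
          exact W.smul_mem _ ha }
    have hmem : ∀ w, w ∈ W' ↔ (fun k => ρ.symm (w k)) ∈ W := fun _ => Iff.rfl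
    rcases hI'.2 W' (fun σ w hw => by
      rw [hmem] at hw ⊢
      have h2 : (fun k => ρ.symm ((Δ' σ *ᵥ w) k)) =
          Cjf Δ' ρ.symm (σ.trans ρ.symm) *ᵥ fun k => ρ.symm (w k) := by
        have h3 : (σ.trans ρ.symm).trans ρ.symm.symm = σ := by
          ext z
          simp
        funext k
        unfold Cjf
        rw [h3]
        simp only [Matrix.mulVec, dotProduct, map_sum, map_mul, Matrix.map_apply]
      rw [h2]
      exact hW _ _ hw) with h2 | h2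
    · left
      rw [Submodule.eq_bot_iff]
      intro w hw
      have h3 : (fun k => ρ (w k)) ∈ W' := by
        rw [hmem]
        have h4 : (fun k => ρ.symm ((fun k => ρ (w k)) k)) = w := by
          funext k
          exact ρ.symm_apply_apply _
        rw [h4]
        exact hw
      rw [h2, Submodule.mem_bot] at h3
      funext k
      have h4 := congrFun h3 k
      exact ρ.injective (h4.trans (map_zero ρ).symm)
    · right
      rw [Submodule.eq_top_iff']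
      intro w
      have h3 : (fun k => ρ (w k)) ∈ W' := by rw [h2]; trivial
      rw [hmem] at h3
      have h4 : (fun k => ρ.symm ((fun k => ρ (w k)) k)) = w := by
        funext k
        exact ρ.symm_apply_apply _
      rwa [h4] at h3
  have hd' := hI'.1
  -- some `Δ τ` moves the range of `V`
  obtain ⟨τ, hτJ, hτ⟩ : ∃ τ, τ ∉ J ∧ ¬ ∀ w, ∃ w', Δ τ *ᵥ (V *ᵥ w) = V *ᵥ w' := by
    by_contra hcon
    push Not at hcon
    have h1 : ∀ σ, ∀ w ∈ LinearMap.range V.mulVecLin, Δ σ *ᵥ w ∈ LinearMap.range V.mulVecLin := by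
      rintro σ _ ⟨w, rfl⟩
      by_cases hσ : σ ∈ J
      · refine ⟨E σ *ᵥ w, ?_⟩
        rw [Matrix.mulVecLin_apply, Matrix.mulVecLin_apply, Matrix.mulVec_mulVec, ← hVJ σ hσ,
          Matrix.mulVec_mulVec]
      · obtain ⟨w', hw'⟩ := hcon σ hσ w
        exact ⟨w', hw'.symm⟩
    have h3 : LinearMap.range V.mulVecLin ≠ ⊥ := by
      intro h4
      rw [LinearMap.range_eq_bot] at h4
      have h5 : V *ᵥ (Pi.single ⟨0, hd'⟩ 1) = 0 := LinearMap.congr_fun h4 (Pi.single ⟨0, hd'⟩ 1)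
      have h6 : (R₁ * Q * V) *ᵥ (Pi.single ⟨0, hd'⟩ 1) = (0 : Fin d' → ℂ) := by
        rw [← Matrix.mulVec_mulVec, h5, Matrix.mulVec_zero]
      rw [hVi, Matrix.one_mulVec] at h6
      have h7 := congrFun h6 ⟨0, hd'⟩
      rw [Pi.single_eq_same] at h7
      exact one_ne_zero h7
    have h4 := (hI.2 _ h1).resolve_left h3
    have h5 : finrank ℂ (LinearMap.range V.mulVecLin) ≤ d' := by
      refine (LinearMap.finrank_range_le _).trans ?_
      rw [Module.finrank_fin_fun]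
    rw [h4, finrank_top, Module.finrank_fin_fun] at h5
    have h6 : d' ≤ m := by
      have h7 := LinearMap.finrank_le_finrank_of_injective hinj
      rwa [Module.finrank_fin_fun, Module.finrank_fin_fun] at h7
    omega
  -- the two subspaces are disjoint
  let K : Submodule ℂ (Fin d' → ℂ) :=
    { carrier := {w | ∃ w', Δ τ *ᵥ (V *ᵥ w) = V *ᵥ w'}
      add_mem' := by
        rintro a b ⟨a', ha⟩ ⟨b', hb⟩
        exact ⟨a' + b', by rw [Matrix.mulVec_add, Matrix.mulVec_add, ha, hb, Matrix.mulVec_add]⟩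
      zero_mem' := ⟨0, by rw [Matrix.mulVec_zero, Matrix.mulVec_zero]⟩
      smul_mem' := by
        rintro c a ⟨a', ha⟩
        exact ⟨c • a', by rw [Matrix.mulVec_smul, Matrix.mulVec_smul, ha, Matrix.mulVec_smul]⟩ }
  have hKmem : ∀ w, w ∈ K ↔ ∃ w', Δ τ *ᵥ (V *ᵥ w) = V *ᵥ w' := fun _ => Iff.rfl
  have hK : K = ⊥ := by
    refine (hEI K fun σ w hw => ?_).resolve_right fun h => ?_
    · obtain ⟨w', hw'⟩ := (hKmem w).1 hw
      by_cases hσ : σ ∈ J
      · refine (hKmem _).2 ⟨E σ *ᵥ w', ?_⟩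
        rw [Matrix.mulVec_mulVec w V (E σ), ← hVJ σ hσ, ← Matrix.mulVec_mulVec w (Δ σ) V,
          Matrix.mulVec_mulVec _ (Δ τ) (Δ σ), ← hJ.com σ hσ τ hτJ,
          ← Matrix.mulVec_mulVec _ (Δ σ) (Δ τ), hw', Matrix.mulVec_mulVec w' (Δ σ) V, hVJ σ hσ,
          Matrix.mulVec_mulVec]
      · rw [hEs σ hσ, Matrix.smul_mulVec, Matrix.one_mulVec]
        exact K.smul_mem _ hw
    · apply hτ
      intro w
      have h1 : w ∈ K := by rw [h]; trivial
      exact (hKmem w).1 h1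
  have hVinj : ∀ w, V *ᵥ w = 0 → w = 0 := by
    intro w hw
    have h1 : (R₁ * Q * V) *ᵥ w = 0 := by rw [← Matrix.mulVec_mulVec, hw, Matrix.mulVec_zero]
    rwa [hVi, Matrix.one_mulVec] at h1
  let T : (Fin d' → ℂ) × (Fin d' → ℂ) →ₗ[ℂ] (Fin d → ℂ) :=
    V.mulVecLin.coprod ((Δ τ).mulVecLin ∘ₗ V.mulVecLin)
  have hT : Function.Injective T := by
    rw [injective_iff_map_eq_zero]
    rintro ⟨a, b⟩ hab
    have h1 : V *ᵥ a + Δ τ *ᵥ (V *ᵥ b) = 0 := hab
    have h2 : b ∈ K := (hKmem b).2 ⟨-a, by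
      rw [Matrix.mulVec_neg]
      exact eq_neg_of_add_eq_zero_right h1⟩
    rw [hK, Submodule.mem_bot] at h2
    subst h2
    rw [Matrix.mulVec_zero, Matrix.mulVec_zero, add_zero] at h1
    rw [hVinj a h1]
    rfl
  have h1 := LinearMap.finrank_le_finrank_of_injective hT
  rw [Module.finrank_prod, Module.finrank_fin_fun, Module.finrank_fin_fun] at h1
  omega

/-- The decomposable case, with the bound. -/
theorem r1_bd (h1 : St_spr) (h2 : St_lalg) {N d : ℕ}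
    {Δ : (ℂ ≃+* ℂ) → Matrix (Fin d) (Fin d) ℂ} (hG : Gd Δ) (hI : IrD Δ) (hB : Bd N Δ)
    (hD : DecD Δ) : RedB N Δ := by
  classical
  have hdN := hB.dim hG.sq
  obtain ⟨J₀, hcom, ⟨s, hs, hsn⟩, ⟨t, ht, htn⟩⟩ := hD
  obtain ⟨K0, hK0, -⟩ := hG.eqv
  obtain ⟨u, hu⟩ : ∃ u, R Δ s u := by
    by_contra hcon
    push Not at hcon
    obtain ⟨c, hc⟩ := schur hI (X := Δ s) fun σ => by
      by_contra h
      exact hcon σ h
    exact hsn c hc
  set J := Cp Δ s with hJd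
  have hJJ : ∀ σ ∈ J, σ ∈ J₀ := by
    intro σ hσ
    have hσ' : Relation.ReflTransGen (R Δ) s σ := hσ
    induction hσ' with
    | refl => exact hs
    | tail h3 h4 ih =>
      by_contra h5
      exact h4 (hcom _ (ih h3) _ h5)
  have htJ : t ∉ J := fun h => ht (hJJ t h)
  have hJ : JP Δ J := Cp_JP hG hI hu
  have hJc := hJ.compl
  have hsJ : s ∈ J := Cp_self s
  obtain ⟨n, X, hX, hXa⟩ := alg_basis h2 hG hJ
  obtain ⟨n', Y, hY, hYa⟩ := alg_basis h2 hG hJc
  obtain ⟨v0, a, b, hv0, hva, hvb⟩ := ev_lem hI.1 (hG.sq s) (hG.sq t) (hJ.com s hsJ t htJ)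
  obtain ⟨l, hl, hl0⟩ := row_lem (Δ := Δ) (J := J) htn (fun σ hσ => hJ.com σ hσ t htJ) hvb
  obtain ⟨l', hl', hl0'⟩ := row_lem (Δ := Δ) (J := Jᶜ) hsn
    (fun σ hσ => (hJ.com s hsJ σ hσ).symm) hva
  obtain ⟨v, w, w', hv, hw, hw', hval, hwX, hwY⟩ := vec_lem h1 hXa hYa hv0 hl hl'
    (fun a => hl0 _ ((hX _).1 (Submodule.subset_span ⟨a, rfl⟩)))
    (fun a => hl0' _ ((hY _).1 (Submodule.subset_span ⟨a, rfl⟩)))
  obtain ⟨m, P, Q, c, hm0, hmd, hQP, hPa, hQa, hc, hPc, hZ⟩ := cols h1 hX hXa hv hw hval hwX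
  obtain ⟨m', P', Q', c', hm0', hmd', hQP', hPa', hQa', hc', hPc', hZ'⟩ :=
    cols h1 hY hYa hv hw' hval hwY
  have hst := st_cols (Q := Q) hc hPc hZ
  have hst' := st_cols (Q := Q') hc' hPc' hZ'
  have hcc : ∀ k l, c' l * c k = c k * c' l := by
    intro k l
    refine alg_comm (hc' l) fun σ hσ => ?_
    exact (alg_comm (hc k) fun τ hτ => hJ.com τ hτ σ hσ).symm
  -- the homomorphism
  set N₀ : Matrix (Fin d) (Fin m × Fin m') ℂ := fun i p => (c' p.2 * P) i p.1 with hN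
  have hN1 : ∀ i k l, N₀ i (k, l) = (c' l * P) i k := fun i k l => rfl
  have hN2 : ∀ i k l, N₀ i (k, l) = (c k * P') i l := by
    intro i k l
    rw [hN1]
    have e1 : (c' l * P) i k = ((c' l * c k) *ᵥ v) i := by
      rw [← mulVec_mulVec]
      change ∑ j, c' l i j * P j k = ∑ j, c' l i j * (c k *ᵥ v) j
      exact Finset.sum_congr rfl fun j _ => by rw [hPc]
    have e2 : (c k * P') i l = ((c k * c' l) *ᵥ v) i := by
      rw [← mulVec_mulVec]
      change ∑ j, c k i j * P' j l = ∑ j, c k i j * (c' l *ᵥ v) j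
      exact Finset.sum_congr rfl fun j _ => by rw [hPc']
    rw [e1, e2, hcc]
  refine ⟨m, m', fam Δ J P Q, fam Δ Jᶜ P' Q', fun σ => -eps σ, hm0, hm0', hmd, hmd',
    gd_fam hG hJ hQP hst hPa hQa, gd_fam hG hJc hQP' hst' hPa' hQa', fun σ => ?_, gd_line K0 hK0,
    Or.inl ⟨N₀, ?_, fun σ => ?_⟩, ?_, ?_⟩
  · change -eps σ = 1 ∨ -eps σ = -1
    rcases eps_or σ with h | h <;> rw [h]
    · exact Or.inr rfl
    · exact Or.inl rfl
  · intro h0
    have hvP : v = P *ᵥ (Q *ᵥ v) := by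
      have := hZ 1 (Subalgebra.one_mem _)
      rw [one_mulVec] at this
      exact this.symm
    have h3 : ∀ l, c' l *ᵥ v = 0 := by
      intro l
      have h4 : c' l * P = 0 := by
        ext i k
        have := congrFun (congrFun h0 i) (k, l)
        rw [hN1] at this
        exact this
      rw [hvP, mulVec_mulVec, h4, zero_mulVec]
    have h4 : P' = 0 := by
      ext i l
      rw [hPc', h3]
      rfl
    rw [h4, Matrix.mul_zero] at hQP'
    have h5 := congrFun (congrFun hQP' ⟨0, hm0'⟩) ⟨0, hm0'⟩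
    simp at h5
  · by_cases hσ : σ ∈ J
    · have hσ' : σ ∉ Jᶜ := fun h => h hσ
      rw [fam_pos hσ, fam_neg hσ']
      have e1 : tpD (Q * Δ σ * P) ((eps σ : ℂ) • (1 : Matrix (Fin m') (Fin m') ℂ))
          ((-eps σ : ℤ) : ℂ) = kroneckerMap (fun a b => a * b) (Q * Δ σ * P)
            (1 : Matrix (Fin m') (Fin m') ℂ) := by
        unfold tpD
        have e2 : kroneckerMap (fun a b => a * b) (1 : Matrix (Fin m) (Fin m) ℂ)
            ((eps σ : ℂ) • (1 : Matrix (Fin m') (Fin m') ℂ)) = (eps σ : ℂ) • 1 := by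
          ext ⟨p, q⟩ ⟨p', q'⟩
          simp only [kroneckerMap_apply, Matrix.smul_apply, Matrix.one_apply, Prod.mk.injEq,
            smul_eq_mul]
          by_cases h : p = p' <;> by_cases h' : q = q' <;> simp [h, h']
        rw [e2]
        push_cast
        rw [neg_smul]
        abel
      rw [e1]
      ext i ⟨k, l⟩
      rw [mulK1]
      calc (Δ σ * N₀) i (k, l) = (Δ σ * (c' l * P)) i k := rfl
        _ = (c' l * P * (Q * Δ σ * P)) i k := by
          have e3 : Δ σ * c' l = c' l * Δ σ :=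
            (alg_comm (hc' l) fun τ hτ => (hJ.com σ hσ τ hτ).symm).symm
          rw [← Matrix.mul_assoc, e3, Matrix.mul_assoc, hst σ hσ, ← Matrix.mul_assoc]
        _ = _ := by
          rw [Matrix.mul_apply]
    · rw [fam_neg hσ, fam_pos (J := Jᶜ) hσ]
      have e1 : tpD ((eps σ : ℂ) • (1 : Matrix (Fin m) (Fin m) ℂ)) (Q' * Δ σ * P')
          ((-eps σ : ℤ) : ℂ) = kroneckerMap (fun a b => a * b) (1 : Matrix (Fin m) (Fin m) ℂ)
            (Q' * Δ σ * P') := by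
        unfold tpD
        have e2 : kroneckerMap (fun a b => a * b) ((eps σ : ℂ) • (1 : Matrix (Fin m) (Fin m) ℂ))
            (1 : Matrix (Fin m') (Fin m') ℂ) = (eps σ : ℂ) • 1 := by
          ext ⟨p, q⟩ ⟨p', q'⟩
          simp only [kroneckerMap_apply, Matrix.smul_apply, Matrix.one_apply, Prod.mk.injEq,
            smul_eq_mul]
          by_cases h : p = p' <;> by_cases h' : q = q' <;> simp [h, h']
        rw [e2]
        push_cast
        rw [neg_smul]
        abel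
      rw [e1]
      ext i ⟨k, l⟩
      rw [mulK2]
      calc (Δ σ * N₀) i (k, l) = ∑ j, Δ σ i j * N₀ j (k, l) := rfl
        _ = ∑ j, Δ σ i j * (c k * P') j l := Finset.sum_congr rfl fun j _ => by rw [hN2]
        _ = (Δ σ * (c k * P')) i l := rfl
        _ = (c k * P' * (Q' * Δ σ * P')) i l := by
          have e3 : Δ σ * c k = c k * Δ σ :=
            (alg_comm (hc k) fun τ hτ => hJ.com τ hτ σ hσ).symm
          rw [← Matrix.mul_assoc, e3, Matrix.mul_assoc, hst' σ hσ, ← Matrix.mul_assoc]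
        _ = ∑ l', (c k * P') i l' * (Q' * Δ σ * P') l' l := Matrix.mul_apply
        _ = _ := Finset.sum_congr rfl fun l' _ => by rw [hN2]

  · intro d' Δ' hI' ρ G hG0 hGi
    have := half_dim hI hJ hQP hst hmd hI' hG0 hGi
    exact bd_le (by omega)
  · intro d' Δ' hI' ρ G hG0 hGi
    have := half_dim hI hJc hQP' hst' hmd' hI' hG0 hGi
    exact bd_le (by omega)


end

end Pool.Agent.H17.Bn
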