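import Mathlib
import Pool.Agent.H17.Bn.R1

/-!
# The case of exterior powers, with a bound for the multiplicities
-/

set_option linter.unusedSectionVars false

namespace Pool.Agent.H17.Bn

open Matrix Module Pool.Agent.NH32 Pool.Agent.NH32.GK12
open scoped ComplexOrder

noncomputable section

/-- The trace of a representation of the matrices. -/
theorem psi_trace {n m j : ℕ} (hn : 0 < n)
    {ψ : Matrix (Fin n) (Fin n) ℂ →ₗ[ℂ] Matrix (Fin m) (Fin m) ℂ} (hψ : Psi n m j ψ)
    (Y : Matrix (Fin n) (Fin n) ℂ) : (n : ℂ) * trace (ψ Y) = j * m * trace Y := by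
  have hc : ∀ A B : Matrix (Fin n) (Fin n) ℂ, trace (ψ (A * B)) = trace (ψ (B * A)) := by
    intro A B
    have h1 := congrArg trace (hψ.br A B)
    rw [map_sub, trace_sub, trace_sub, trace_mul_comm (ψ A), sub_self, sub_eq_zero] at h1
    exact h1
  let i₀ : Fin n := ⟨0, hn⟩
  have h1 : ∀ i : Fin n, trace (ψ (single i i 1)) = trace (ψ (single i₀ i₀ 1)) := by
    intro i
    have e1 : (single i i (1 : ℂ)) = single i i₀ 1 * single i₀ i 1 := by
      rw [single_mul_single_same, one_mul]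
    have e2 : (single i₀ i₀ (1 : ℂ)) = single i₀ i 1 * single i i₀ 1 := by
      rw [single_mul_single_same, one_mul]
    rw [e1, hc, ← e2]
  have h2 : ∀ i k : Fin n, i ≠ k → trace (ψ (single i k 1)) = 0 := by
    intro i k hik
    have e1 : (single i k (1 : ℂ)) = single i i 1 * single i k 1 := by
      rw [single_mul_single_same, one_mul]
    rw [e1, hc, single_mul_single_of_ne (h := hik.symm), map_zero, trace_zero]
  have h3 : ∀ Y : Matrix (Fin n) (Fin n) ℂ,
      trace (ψ Y) = trace (ψ (single i₀ i₀ 1)) * trace Y := by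
    intro Y
    conv_lhs => rw [matrix_eq_sum_single Y]
    rw [map_sum, trace_sum]
    have h4 : ∀ i, trace (ψ (∑ k, single i k (Y i k))) =
        trace (ψ (single i₀ i₀ 1)) * Y i i := by
      intro i
      rw [map_sum, trace_sum, Finset.sum_eq_single i]
      · have e1 : (single i i (Y i i)) = Y i i • (single i i (1 : ℂ)) := by
          rw [smul_single, smul_eq_mul, mul_one]
        rw [e1, map_smul, trace_smul, h1, smul_eq_mul, mul_comm]
      · intro k _ hk
        have e1 : (single i k (Y i k)) = Y i k • (single i k (1 : ℂ)) := by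
          rw [smul_single, smul_eq_mul, mul_one]
        rw [e1, map_smul, trace_smul, h2 i k hk.symm, smul_zero]
      · intro h
        exact absurd (Finset.mem_univ i) h
    rw [Finset.sum_congr rfl fun i _ => h4 i, ← Finset.mul_sum]
    rfl
  have h4 := h3 1
  rw [hψ.one, trace_smul, trace_one, trace_one, Fintype.card_fin, Fintype.card_fin,
    smul_eq_mul] at h4
  rw [h3 Y, h4]
  ring

variable {N d n k : ℕ} {Δ : (ℂ ≃+* ℂ) → Matrix (Fin d) (Fin d) ℂ}
  {φ : Matrix (Fin d) (Fin d) ℂ →ₗ[ℂ] Matrix (Fin n) (Fin n) ℂ}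
  {ι : (Fin d → ℂ) →ₗ[ℂ] ((Fin k → Fin n) → ℂ)} {T C : (ℂ ≃+* ℂ) → ℤ}

/-- The bound for the families given by the representations. -/
theorem psi_bd (hB : Bd N Δ) (hG : Gd Δ) (hd : 0 < d) (hn : 0 < n) (hkn : k ≤ n)
    (h : TC Δ n k φ T C) {m j : ℕ}
    {ψ : Matrix (Fin n) (Fin n) ℂ →ₗ[ℂ] Matrix (Fin m) (Fin m) ℂ} (hψ : Psi n m j ψ)
    (hjn : j ≤ n) (hmd : m ≤ d)
    (h1 : j * m ≤ k * d ∨ j * m ≤ (n - k) * d)
    (h2 : (n - j) * m ≤ k * d ∨ (n - j) * m ≤ (n - k) * d) :
    Bd N fun σ => ψ (φ (Δ σ)) + ((sj n j T C σ : ℚ) : ℂ) • (1 : Matrix (Fin m) (Fin m) ℂ) := by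
  have hn' : (n : ℂ) ≠ 0 := by exact_mod_cast hn.ne'
  have hd' : (d : ℂ) ≠ 0 := by exact_mod_cast hd.ne'
  intro σ
  rcases h.cs σ with ⟨c1, c2, c3⟩ | ⟨c1, c2, U, c3, c4, c5⟩
  · -- a scalar: then `Δ σ` is a scalar
    have hdN : d ≤ N := by
      have e1 := h.tr σ
      rw [c1] at e1
      push_cast at e1
      rw [zero_mul, zero_add, div_eq_iff hd'] at e1
      rcases c2 with c2 | c2
      · rw [c2] at e1
        have := (hB.num hG.sq σ (p := d) (by rw [e1]; push_cast; ring)).1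
        exact this
      · rw [c2] at e1
        have := (hB.num hG.sq σ (p := 0) (by rw [e1]; push_cast; ring)).2
        omega
    exact ⟨(Matrix.rank_le_width _).trans (hmd.trans hdN),
      (Matrix.rank_le_width _).trans (hmd.trans hdN)⟩
  · -- the ranks of the member and of `Δ σ`
    have hU2 := hψ.sq U c3 c4
    have hUr : (n : ℂ) * ((ψ U).rank : ℂ) = j * m := by
      rw [← rank_idem hU2, psi_trace hn hψ, c4, mul_one]
    have hU2' : (1 - ψ U) * (1 - ψ U) = 1 - ψ U := by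
      rw [Matrix.mul_sub, Matrix.sub_mul, Matrix.sub_mul, hU2]
      simp
    have hUr' : (n : ℂ) * ((1 - ψ U).rank : ℂ) = ((n - j : ℕ) : ℂ) * m := by
      have e1 := rank_idem hU2'
      rw [trace_sub, trace_one, Fintype.card_fin] at e1
      rw [← e1, mul_sub, psi_trace hn hψ, c4, mul_one, Nat.cast_sub hjn]
      ring
    have n1 : n * (ψ U).rank = j * m := by exact_mod_cast hUr
    have n2 : n * (1 - ψ U).rank = (n - j) * m := by exact_mod_cast hUr'
    obtain ⟨t1, t2⟩ := trace_inv (hG.sq σ)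
    obtain ⟨b1, b2⟩ := hB σ
    have e1 := h.tr σ
    rw [c1, Int.cast_zero, add_zero, div_eq_iff hd'] at e1
    -- the ranks of `1 ± Δ σ` are `k d / n` and `(n - k) d / n`
    have hk1 : k * d ≤ n * N ∧ (n - k) * d ≤ n * N := by
      rcases c2 with c2 | c2
      · rw [c2, Int.cast_one, one_mul] at e1
        rw [e1] at t1 t2
        have f1 : (n : ℂ) * ((1 + Δ σ).rank : ℂ) = k * d := by
          have : 2 * ((n : ℂ) * ((1 + Δ σ).rank : ℂ)) = 2 * (k * d) := by
            calc 2 * ((n : ℂ) * ((1 + Δ σ).rank : ℂ)) = n * (2 * ((1 + Δ σ).rank : ℂ)) := by ring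
              _ = n * (d + (2 * k / n - 1) * d) := by rw [← t1]
              _ = 2 * (k * d) := by field_simp; ring
          linear_combination (1/2 : ℂ) * this
        have f2 : (n : ℂ) * ((1 - Δ σ).rank : ℂ) = ((n - k : ℕ) : ℂ) * d := by
          have : 2 * ((n : ℂ) * ((1 - Δ σ).rank : ℂ)) = 2 * (((n : ℂ) - k) * d) := by
            calc 2 * ((n : ℂ) * ((1 - Δ σ).rank : ℂ)) = n * (2 * ((1 - Δ σ).rank : ℂ)) := by ring
              _ = n * (d - (2 * k / n - 1) * d) := by rw [← t2]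
              _ = 2 * (((n : ℂ) - k) * d) := by field_simp; ring
          rw [Nat.cast_sub hkn]
          linear_combination (1/2 : ℂ) * this
        have g1 : n * (1 + Δ σ).rank = k * d := by exact_mod_cast f1
        have g2 : n * (1 - Δ σ).rank = (n - k) * d := by exact_mod_cast f2
        rw [← g1, ← g2]
        exact ⟨Nat.mul_le_mul_left _ b1, Nat.mul_le_mul_left _ b2⟩
      · rw [c2, Int.cast_neg, Int.cast_one, neg_one_mul] at e1
        rw [e1] at t1 t2
        have f1 : (n : ℂ) * ((1 - Δ σ).rank : ℂ) = k * d := by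
          have : 2 * ((n : ℂ) * ((1 - Δ σ).rank : ℂ)) = 2 * (k * d) := by
            calc 2 * ((n : ℂ) * ((1 - Δ σ).rank : ℂ)) = n * (2 * ((1 - Δ σ).rank : ℂ)) := by ring
              _ = n * (d - -(2 * k / n - 1) * d) := by rw [← t2]
              _ = 2 * (k * d) := by field_simp; ring
          linear_combination (1/2 : ℂ) * this
        have f2 : (n : ℂ) * ((1 + Δ σ).rank : ℂ) = ((n - k : ℕ) : ℂ) * d := by
          have : 2 * ((n : ℂ) * ((1 + Δ σ).rank : ℂ)) = 2 * (((n : ℂ) - k) * d) := by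
            calc 2 * ((n : ℂ) * ((1 + Δ σ).rank : ℂ)) = n * (2 * ((1 + Δ σ).rank : ℂ)) := by ring
              _ = n * (d + -(2 * k / n - 1) * d) := by rw [← t1]
              _ = 2 * (((n : ℂ) - k) * d) := by field_simp; ring
          rw [Nat.cast_sub hkn]
          linear_combination (1/2 : ℂ) * this
        have g1 : n * (1 - Δ σ).rank = k * d := by exact_mod_cast f1
        have g2 : n * (1 + Δ σ).rank = (n - k) * d := by exact_mod_cast f2
        rw [← g1, ← g2]
        exact ⟨Nat.mul_le_mul_left _ b2, Nat.mul_le_mul_left _ b1⟩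
    have hr1 : (ψ U).rank ≤ N := by
      refine Nat.le_of_mul_le_mul_left ?_ hn
      rw [n1]
      rcases h1 with h1 | h1
      · exact h1.trans hk1.1
      · exact h1.trans hk1.2
    have hr2 : (1 - ψ U).rank ≤ N := by
      refine Nat.le_of_mul_le_mul_left ?_ hn
      rw [n2]
      rcases h2 with h2 | h2
      · exact h2.trans hk1.1
      · exact h2.trans hk1.2
    have e0 : ψ (φ (Δ σ)) + ((sj n j T C σ : ℚ) : ℂ) • 1 = (T σ : ℂ) • ((2 : ℂ) • ψ U - 1) := by
      unfold sj
      rw [c5, map_smul, map_sub, map_smul, map_smul, hψ.one, c1]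
      push_cast
      module
    have key : ∀ (c : ℂ) (A : Matrix (Fin m) (Fin m) ℂ), (c • A).rank ≤ A.rank := by
      intro c A
      have h1 : c • A = A * (c • 1) := by rw [Matrix.mul_smul, Matrix.mul_one]
      rw [h1]
      exact Matrix.rank_mul_le_left _ _
    have r1 : (1 + ((2 : ℂ) • ψ U - 1)).rank ≤ N := by
      have : 1 + ((2 : ℂ) • ψ U - 1) = (2 : ℂ) • ψ U := by abel
      rw [this]
      exact (key _ _).trans hr1
    have r2 : (1 - ((2 : ℂ) • ψ U - 1)).rank ≤ N := by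
      have : 1 - ((2 : ℂ) • ψ U - 1) = (2 : ℂ) • (1 - ψ U) := by module
      rw [this]
      exact (key _ _).trans hr2
    show (1 + (ψ (φ (Δ σ)) + ((sj n j T C σ : ℚ) : ℂ) • 1)).rank ≤ N ∧
      (1 - (ψ (φ (Δ σ)) + ((sj n j T C σ : ℚ) : ℂ) • 1)).rank ≤ N
    rw [e0]
    rcases c2 with c2 | c2
    · rw [c2, Int.cast_one, one_smul]
      exact ⟨r1, r2⟩
    · rw [c2, Int.cast_neg, Int.cast_one, neg_one_smul, ← sub_eq_add_neg, sub_neg_eq_add]
      exact ⟨r2, r1⟩

theorem choose_ge {n k : ℕ} (hk : 2 ≤ k) (hkn : k + 2 ≤ n) : 2 * (n - 1) ≤ n.choose k := by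
  obtain ⟨m, rfl⟩ : ∃ m, n = m + 1 := ⟨n - 1, by omega⟩
  obtain ⟨l, rfl⟩ : ∃ l, k = l + 1 := ⟨k - 1, by omega⟩
  have key : ∀ j, 1 ≤ j → j + 1 ≤ m → m ≤ m.choose j := by
    intro j h1 h2
    rcases Nat.lt_or_ge j 2 with h3 | h3
    · have : j = 1 := by omega
      rw [this, Nat.choose_one_right]
    · rcases Nat.lt_or_ge (j + 1) m with h4 | h4
      · exact (choose_gt h3 (by omega)).le
      · have : j = m - 1 := by omega
        rw [this, Nat.choose_symm (show 1 ≤ m by omega), Nat.choose_one_right]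
  have h1 := key l (by omega) (by omega)
  have h2 := key (l + 1) (by omega) (by omega)
  have h3 : (m + 1).choose (l + 1) = m.choose l + m.choose (l + 1) := Nat.choose_succ_succ m l
  rw [h3]
  omega

/-- The case of exterior powers, with the bound. -/
theorem r2_bd (h1 : St_r2a) (h2 : St_fam) (h3 : St_dtc) (h4 : St_unit) (h5 : St_typ) {N d : ℕ}
    {Δ : (ℂ ≃+* ℂ) → Matrix (Fin d) (Fin d) ℂ} (hG : Gd Δ) (hI : IrD Δ) (hB : Bd N Δ)
    (hex : ∃ n k φ ι, ATD Δ n k φ ι) : RedB N Δ := by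
  obtain ⟨n, k, φ₀, ι₀, hA₀⟩ := hex
  obtain ⟨φ, ι, hA, hAl⟩ := h1 d Δ hG hI n k φ₀ ι₀ hA₀
  obtain ⟨T, C, hTC⟩ := exists_TC h5 hG hI hA
  have hk2 := hA.k2
  have hkn := hA.kn
  have hn : 4 ≤ n := by omega
  have hd := dim_eq hA
  have hnd : n < d := by
    rw [hd]
    exact choose_gt hk2 hkn
  have hd2 : 2 * (n - 1) ≤ d := by
    rw [hd]
    exact choose_ge hk2 hkn
  have hW := hTC.good hn h2 h4 hG hI hA hAl (psi_id n)
  have hkk : n ≤ 2 * k ∨ n ≤ 2 * (n - k) := by omega
  have hq : (n - 1) * n ≤ k * d ∨ (n - 1) * n ≤ (n - k) * d := by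
    rcases hkk with h | h
    · left
      have := Nat.mul_le_mul h hd2
      nlinarith
    · right
      have := Nat.mul_le_mul h hd2
      nlinarith
  have hq1 : 1 * n ≤ k * d ∨ 1 * n ≤ (n - k) * d := by
    rcases hq with h | h
    · left
      refine le_trans ?_ h
      exact Nat.mul_le_mul_right _ (by omega)
    · right
      refine le_trans ?_ h
      exact Nat.mul_le_mul_right _ (by omega)
  have hWB := psi_bd hB hG hI.1 (by omega) (by omega) hTC (psi_id n) (by omega) hnd.le hq1 hq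
  by_cases hc : 2 * k ≤ n
  · obtain ⟨j, rfl⟩ : ∃ j, k = j + 1 := ⟨k - 1, by omega⟩
    have hV := hTC.good hn h2 h4 hG hI hA hAl (psi_RR n j)
    have hF := hTC.line hn h2 h4 hG hI hA hAl (e := 1) (Or.inl rfl)
    have hlt : n.choose j < d := by
      rw [hd]
      exact choose_lt_up hc
    have hid : (n - j) * n.choose j = (j + 1) * d := by
      rw [hd]
      have := Nat.choose_succ_right_eq n j
      rw [mul_comm (j + 1), this, mul_comm]
    have hVB := psi_bd hB hG hI.1 (by omega) (by omega) hTC (psi_RR n j) (by omega) hlt.le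
      (Or.inl (le_trans (Nat.mul_le_mul_right _ (show j ≤ n - j by omega)) hid.le))
      (Or.inl hid.le)
    refine ⟨n.choose j, n, _, _, fun σ => 1 * (T σ - C σ), Nat.choose_pos (by omega), by omega, hlt,
      hnd, hV, hW, hF.1, hF.2, Or.inr ⟨NA ι, NA_ne hI.1 hA, fun σ => NA_eq hA hTC σ⟩, ?_, ?_⟩
    · intro d' Δ' hI' ρ G hG0 hGi
      exact (hVB.cjf ρ).sub hI' hG0 hGi
    · intro d' Δ' hI' ρ G hG0 hGi
      exact (hWB.cjf ρ).sub hI' hG0 hGi
  · have hV := hTC.good hn h2 h4 hG hI hA hAl (psi_RR n (k + 1))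
    have hF := hTC.line hn h2 h4 hG hI hA hAl (e := -1) (Or.inr rfl)
    obtain ⟨N₀, hN0, hN⟩ := NB hA hTC (by omega)
    have hlt : n.choose (k + 1) < d := by
      rw [hd]
      exact choose_lt_down (by omega) (by omega)
    have hid : (k + 1) * n.choose (k + 1) = (n - k) * d := by
      rw [hd]
      have := Nat.choose_succ_right_eq n k
      rw [mul_comm (k + 1), this, mul_comm]
    have hVB := psi_bd hB hG hI.1 (by omega) (by omega) hTC (psi_RR n (k + 1)) (by omega) hlt.le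
      (Or.inr hid.le)
      (Or.inr (le_trans (Nat.mul_le_mul_right _ (show n - (k + 1) ≤ k + 1 by omega)) hid.le))
    have hWT : Bd N fun σ => -((LinearMap.id : Matrix (Fin n) (Fin n) ℂ →ₗ[ℂ] _) (φ (Δ σ)) +
        ((sj n 1 T C σ : ℚ) : ℂ) • (1 : Matrix (Fin n) (Fin n) ℂ))ᵀ := by
      intro σ
      have e1 : ∀ M : Matrix (Fin n) (Fin n) ℂ, 1 + -Mᵀ = (1 - M)ᵀ := by
        intro M
        rw [transpose_sub, transpose_one]
        abel
      have e2 : ∀ M : Matrix (Fin n) (Fin n) ℂ, 1 - -Mᵀ = (1 + M)ᵀ := by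
        intro M
        rw [transpose_add, transpose_one]
        abel
      rw [e1, e2, Matrix.rank_transpose, Matrix.rank_transpose]
      exact ⟨(hWB σ).2, (hWB σ).1⟩
    refine ⟨n.choose (k + 1), n, _, _, fun σ => -1 * (T σ - C σ), Nat.choose_pos (by omega),
      by omega, hlt, hnd, hV, (h3 n _ (by omega) hW).1, hF.1, hF.2,
      Or.inl ⟨N₀, hN0, fun σ => hN σ⟩, ?_, ?_⟩
    · intro d' Δ' hI' ρ G hG0 hGi
      exact (hVB.cjf ρ).sub hI' hG0 hGi
    · intro d' Δ' hI' ρ G hG0 hGi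
      exact (hWT.cjf ρ).sub hI' hG0 hGi

end

end Pool.Agent.H17.Bn
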