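import Mathlib
import Pool.Agent.H17.Bn.R2

/-!
# The large hull, with a bound for the multiplicities
-/

set_option linter.unusedSectionVars false

namespace Pool.Agent.H17.Bn

open Matrix Module Pool.Agent.NH32 Pool.Agent.W437.HC Pool.Agent.W437.HD Pool.Agent.TH504.CB
  Pool.Agent.Y90 Pool.Agent.NH32.GK13
open Pool.Agent.W548.Odd hiding cv

noncomputable section

/-- All irreducible modules of `X` have multiplicities at most `N`. -/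
def AB (N : ℕ) (X : AV) : Prop :=
  ∀ (d : ℕ) (Δ : (ℂ ≃+* ℂ) → Matrix (Fin d) (Fin d) ℂ), IrD Δ → Rz X d Δ → Bd N Δ

/-- Adding a twist. -/
theorem step_twB {N : ℕ} (hx : St_ex) (hdf : St_df) (hdtc : St_dtc) (X : AV) (hX : AB N X) (m : ℕ)
    (Δ : (ℂ ≃+* ℂ) → Matrix (Fin m) (Fin m) ℂ) (hI : IrD Δ) (hR : Rz X m Δ) :
    ∃ Y : AV, AB N Y ∧ Rz Y m (twD Δ) ∧ ∀ (d : ℕ) (Δ' : (ℂ ≃+* ℂ) → Matrix (Fin d) (Fin d) ℂ),
      IrD Δ' → Rz Y d Δ' → d ≤ m ∧ (d = m → Rz X d (twD Δ')) := by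
  obtain ⟨E, hE, hEI, hiso⟩ := hdf X m Δ hI hR
  obtain ⟨-, -, hT⟩ := hdtc m E hEI.1 hE
  obtain ⟨Y, hY, hY'⟩ := hx m (twD E) hEI.1 hT
  have hEB : Bd N E := (hX m Δ hI hR).iso hEI hiso
  refine ⟨Y, ?_, iso_rz (iso_symm (iso_tw hiso)) hY, ?_⟩
  · intro d Δ' hI' hR'
    obtain ⟨-, ρ, G, hG, hi⟩ := hY' d Δ' hI' hR'
    exact (hEB.tw.cjf ρ).sub hI' hG hi
  · intro d Δ' hI' hR'
    obtain ⟨h1, ρ, G, hG, hi⟩ := hY' d Δ' hI' hR'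
    refine ⟨h1, ?_⟩
    rintro rfl
    have h2 : IsoD Δ' (Cjf (twD E) ρ) := schur_iso hI' hG hi
    have h3 := iso_tw h2
    rw [tw_cjf, tw_tw] at h3
    exact iso_rz (iso_symm h3) (cjf_rz ρ (iso_rz hiso hR))

/-- Adding the modules needed for the reduction. -/
theorem step_redB {N : ℕ} (hN : 1 ≤ N) (hx : St_ex) (hdf : St_df) (h1 : St_spr) (h2 : St_lalg)
    (h1' : St_r2a) (h2' : St_fam) (h3' : St_dtc) (h4' : St_unit) (h5' : St_typ) (hfac : St_fac)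
    (hpr : St_pr) (X : AV) (hX : AB N X) (m : ℕ) (hm : 2 ≤ m)
    (Δ : (ℂ ≃+* ℂ) → Matrix (Fin m) (Fin m) ℂ)
    (hI : IrD Δ) (hR : Rz X m Δ) (hS : Sp Δ) :
    ∃ Y : AV, AB N Y ∧ RedX Y Δ ∧ ∀ (d : ℕ) (Δ' : (ℂ ≃+* ℂ) → Matrix (Fin d) (Fin d) ℂ), IrD Δ' →
      Rz Y d Δ' → d < m := by
  obtain ⟨E, hE, hEI, hiso⟩ := hdf X m Δ hI hR
  have hEB : Bd N E := (hX m Δ hI hR).iso hEI hiso
  have hred : RedB N E := by
    rcases iso_sp hiso hS with h | h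
    · exact r1_bd h1 h2 hE hEI hEB h
    · exact r2_bd h1' h2' h3' h4' h5' hE hEI hEB h
  obtain ⟨d₁, d₂, Δ₁, Δ₂, F, a1, a2, a3, a4, a5, a6, a7, a8, a9, a10, a11⟩ := hred
  obtain ⟨Y₁, b1, b2⟩ := hx d₁ Δ₁ a1 a5
  obtain ⟨Y₂, c1, c2⟩ := hx d₂ Δ₂ a2 a6
  obtain ⟨Y₃, e1, e2⟩ := hx 1 (lineD F) one_pos a8
  obtain ⟨P, p1, p2, p3⟩ := hpr Y₁ Y₂
  obtain ⟨Q, q1, q2, q3⟩ := hpr P Y₃
  refine ⟨Q, ?_, iso_redX (iso_symm hiso) ⟨d₁, d₂, Δ₁, Δ₂, F, a3, a4, ?_, ?_, ?_, a9⟩, ?_⟩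
  · intro d Δ' hI' hR'
    rcases q3 d Δ' hI' hR' with h | h
    · rcases p3 d Δ' hI' h with h | h
      · obtain ⟨-, ρ, G, hG, hi⟩ := b2 d Δ' hI' h
        exact a10 d Δ' hI' ρ G hG hi
      · obtain ⟨-, ρ, G, hG, hi⟩ := c2 d Δ' hI' h
        exact a11 d Δ' hI' ρ G hG hi
    · exact bd_le ((e2 d Δ' hI' h).1.trans hN)
  · exact hfac.1 _ _ q1 _ _ (hfac.1 _ _ p1 _ _ b1)
  · exact hfac.1 _ _ q1 _ _ (hfac.1 _ _ p2 _ _ c1)
  · exact hfac.1 _ _ q2 _ _ e1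
  · intro d Δ' hI' hR'
    rcases q3 d Δ' hI' hR' with h | h
    · rcases p3 d Δ' hI' h with h | h
      · exact lt_of_le_of_lt (b2 d Δ' hI' h).1 a3
      · exact lt_of_le_of_lt (c2 d Δ' hI' h).1 a4
    · have := (e2 d Δ' hI' h).1
      omega

theorem step_psB {N : ℕ} (hN : 1 ≤ N) (hx : St_ex) (hdf : St_df) (h1 : St_spr) (h2 : St_lalg)
    (h1' : St_r2a) (h2' : St_fam) (h3' : St_dtc) (h4' : St_unit) (h5' : St_typ)
    (hfin : St_fin) (hpr : St_pr) (hfac : St_fac) (X : AV) (hX : AB N X) (m : ℕ) (hm : 1 ≤ m)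
    (hP : PS X (m + 1)) : ∃ X' : AV, AB N X' ∧ Fac X X' ∧ PS X' m := by
  classical
  -- the twists
  obtain ⟨ι, _, D, hD, hD'⟩ := fin2 hfin X (m + 1)
  choose Y hYB hY hY' using fun i => step_twB hx hdf h3' X hX (m + 1) (D i) (hD i).1 (hD i).2
  obtain ⟨X₁, f1, f2, f3⟩ := prod_of hpr hfac X Y
  have hX1 : AB N X₁ := by
    intro d Δ hI hR
    rcases f3 d Δ hI hR with h | ⟨i, h⟩
    · exact hX d Δ hI h
    · exact hYB i d Δ hI h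
  have hP1 : PS X₁ (m + 1) := by
    intro d Δ hI hR hd
    rcases f3 d Δ hI hR with h | ⟨i, h⟩
    · exact fac_sat hfac f1 (hP d Δ hI h hd)
    · have := (hY' i d Δ hI h).1
      omega
  have hT1 : ∀ Δ : (ℂ ≃+* ℂ) → Matrix (Fin (m + 1)) (Fin (m + 1)) ℂ, IrD Δ → Rz X₁ (m + 1) Δ →
      Rz X₁ (m + 1) (twD Δ) := by
    intro Δ hI hR
    rcases f3 _ Δ hI hR with h | ⟨i, h⟩
    · obtain ⟨i, hi⟩ := hD' Δ hI h
      exact hfac.1 _ _ (f2 i) _ _ (iso_rz (iso_tw hi) (hY i))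
    · exact hfac.1 _ _ f1 _ _ ((hY' i _ Δ hI h).2 rfl)
  -- the reductions
  obtain ⟨κ, _, E, hE, hE'⟩ := fin2 hfin X₁ (m + 1)
  have hZ : ∀ i : κ, ∃ Y : AV, AB N Y ∧ (Sp (E i) → RedX Y (E i)) ∧
      ∀ (d : ℕ) (Δ' : (ℂ ≃+* ℂ) → Matrix (Fin d) (Fin d) ℂ), IrD Δ' →
        Rz Y d Δ' → d < m + 1 ∨ Rz X₁ d Δ' := by
    intro i
    by_cases hs : Sp (E i)
    · obtain ⟨Y, h0, h1, h2⟩ := step_redB hN hx hdf h1 h2 h1' h2' h3' h4' h5' hfac hpr X₁ hX1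
        (m + 1) (by omega) (E i) (hE i).1 (hE i).2 hs
      exact ⟨Y, h0, fun _ => h1, fun d Δ' hI hR => Or.inl (h2 d Δ' hI hR)⟩
    · exact ⟨X₁, hX1, fun h => absurd h hs, fun d Δ' _ hR => Or.inr hR⟩
  choose Z hZB hZ hZ' using hZ
  obtain ⟨X₂, g1, g2, g3⟩ := prod_of hpr hfac X₁ Z
  refine ⟨X₂, ?_, hfac.2.1 _ _ _ f1 g1, ?_⟩
  · intro d Δ hI hR
    rcases g3 d Δ hI hR with h | ⟨i, h⟩
    · exact hX1 d Δ hI h
    · exact hZB i d Δ hI h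
  intro d Δ hI hR hd
  have h1 : Rz X₁ d Δ := by
    rcases g3 d Δ hI hR with h | ⟨i, h⟩
    · exact h
    · rcases hZ' i d Δ hI h with h' | h'
      · omega
      · exact h'
  rcases Nat.eq_or_lt_of_le (show m + 1 ≤ d from hd) with h2 | h2
  · subst h2
    refine ⟨hfac.1 _ _ g1 _ _ (hT1 Δ hI h1), fun hs => ?_⟩
    obtain ⟨i, hi⟩ := hE' Δ hI h1
    exact fac_redX hfac (g2 i) (iso_redX hi (hZ i (iso_sp (iso_symm hi) hs)))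
  · exact fac_sat hfac g1 (hP1 d Δ hI h1 h2)

/-- The large hull of an abelian variety with bounded multiplicities has bounded multiplicities. -/
theorem hul2_bd {N : ℕ} (hN : 1 ≤ N) (hx : St_ex) (hdf : St_df) (h1 : St_spr) (h2 : St_lalg)
    (h1' : St_r2a) (h2' : St_fam) (h3' : St_dtc) (h4' : St_unit) (h5' : St_typ)
    (hfin : St_fin) (hpr : St_pr) (hfac : St_fac) (hh : St_hull) (A : AV) (hA : AB N A) :
    ∃ X : AV, AB N X ∧ Fac A X ∧ Hul2 X := by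
  have key : ∀ m, 1 ≤ m → ∀ X : AV, AB N X → PS X m → ∃ X' : AV, AB N X' ∧ Fac X X' ∧ PS X' 1 := by
    intro m hm
    induction m, hm using Nat.le_induction with
    | base => exact fun X hX hP => ⟨X, hX, fac_rfl X, hP⟩
    | succ m hm ih =>
      intro X hX hP
      obtain ⟨X₁, h0, h1, h2⟩ := step_psB hN hx hdf h1 h2 h1' h2' h3' h4' h5' hfin hpr hfac X hX m
        hm hP
      obtain ⟨X₂, h0', h3, h4⟩ := ih X₁ h0 h2
      exact ⟨X₂, h0', hfac.2.1 _ _ _ h1 h3, h4⟩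
  obtain ⟨m, hm, hP⟩ := ps_top A
  obtain ⟨X, h0, h1, h2⟩ := key m hm A hA hP
  obtain ⟨X₃, h3, h4, h5⟩ := hh X
  refine ⟨X₃, ?_, hfac.2.1 _ _ _ h1 h3, h4, ?_⟩
  · intro d Δ hI hR
    rcases h5 d Δ hI hR with h | h
    · exact bd_le (by omega)
    · exact h0 d Δ hI h
  intro d Δ hI hR hd
  rcases h5 d Δ hI hR with h | h
  · exact absurd h hd
  · have h6 := hI.1
    exact fac_sat hfac h3 (h2 d Δ hI h (by omega))

end

end Pool.Agent.H17.Bn
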