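import Mathlib
import Pool.Agent.H17.Bn.Hul

/-!
# The multiplicities of abelian varieties with multiplication by totally real fields
-/

set_option linter.unusedSectionVars false

namespace Pool.Agent.H17.Bn

open Matrix Module Pool.Agent.NH32 Pool.Agent.W437.HC Pool.Agent.W437.HD Pool.Agent.TH504.CB
  Pool.Agent.Y90 Pool.Agent.NH32.GK13 Pool.Agent.NH32.GJ14
open Pool.Agent.W548.Odd hiding cv

noncomputable section

/-- The abelian variety `B` has multiplication by a totally real field `F` and its relative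
dimension over `F` is at most `m`: there are a number field `F` all of whose embeddings in `ℂ` are
real and an embedding of `F` in `End(B) ⊗ ℚ` (acting on `H_1(B, ℚ)`), with `dim B ≤ m [F : ℚ]`.
For `F = ℚ` the condition is `dim B ≤ m`. -/
def RelDim (m : ℕ) (B : AV) : Prop :=
  ∃ (F : Type) (_ : Field F) (_ : Algebra ℚ F) (ρ : F →ₐ[ℚ] Module.End ℚ B.H),
    FiniteDimensional ℚ F ∧ (∀ (φ : F →+* ℂ) (a : F), starRingEnd ℂ (φ a) = φ a) ∧
    (∀ a, IsHom B B (ρ a)) ∧ finrank ℂ B.T ≤ m * finrank ℚ F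

/-- The conjugate of an irreducible family is irreducible. -/
theorem cjf_ir {d : ℕ} {Δ : (ℂ ≃+* ℂ) → Matrix (Fin d) (Fin d) ℂ} (hI : IrD Δ) (ρ : ℂ ≃+* ℂ) :
    IrD (Cjf Δ ρ) := by
  refine ⟨hI.1, fun W hW => ?_⟩
  let W' : Submodule ℂ (Fin d → ℂ) :=
    { carrier := {w | (fun k => ρ (w k)) ∈ W}
      add_mem' := by
        intro a b ha hb
        have h2 : (fun k => ρ ((a + b) k)) = (fun k => ρ (a k)) + fun k => ρ (b k) := by
          funext k
          exact map_add ρ _ _
        show (fun k => ρ ((a + b) k)) ∈ W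
        rw [h2]
        exact W.add_mem ha hb
      zero_mem' := by
        have h2 : (fun k => ρ ((0 : Fin d → ℂ) k)) = 0 := by
          funext k
          exact map_zero ρ
        show (fun k => ρ ((0 : Fin d → ℂ) k)) ∈ W
        rw [h2]
        exact W.zero_mem
      smul_mem' := by
        intro c a ha
        have h2 : (fun k => ρ ((c • a) k)) = ρ c • fun k => ρ (a k) := by
          funext k
          exact map_mul ρ _ _
        show (fun k => ρ ((c • a) k)) ∈ W
        rw [h2]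
        exact W.smul_mem _ ha }
  have hmem : ∀ w, w ∈ W' ↔ (fun k => ρ (w k)) ∈ W := fun _ => Iff.rfl
  rcases hI.2 W' (fun σ w hw => by
    rw [hmem] at hw ⊢
    have h2 : (fun k => ρ ((Δ σ *ᵥ w) k)) = Cjf Δ ρ (σ.trans ρ) *ᵥ fun k => ρ (w k) := by
      have h3 : (σ.trans ρ).trans ρ.symm = σ := by
        ext z
        simp
      funext k
      unfold Cjf
      rw [h3]
      simp only [Matrix.mulVec, dotProduct, map_sum, map_mul, Matrix.map_apply]
    rw [h2]
    exact hW _ _ hw) with h2 | h2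
  · left
    rw [Submodule.eq_bot_iff]
    intro w hw
    have h3 : (fun k => ρ.symm (w k)) ∈ W' := by
      rw [hmem]
      have h4 : (fun k => ρ ((fun k => ρ.symm (w k)) k)) = w := by
        funext k
        exact ρ.apply_symm_apply _
      rw [h4]
      exact hw
    rw [h2, Submodule.mem_bot] at h3
    funext k
    have h4 := congrFun h3 k
    exact ρ.symm.injective (h4.trans (map_zero ρ.symm).symm)
  · right
    rw [Submodule.eq_top_iff']
    intro w
    have h3 : (fun k => ρ.symm (w k)) ∈ W' := by rw [h2]; trivial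
    rw [hmem] at h3
    have h4 : (fun k => ρ ((fun k => ρ.symm (w k)) k)) = w := by
      funext k
      exact ρ.apply_symm_apply _
    rwa [h4] at h3

/-- Equivariant maps from an irreducible module are injective. -/
theorem eqv_inj {X : AV} {d : ℕ} {Δ : (ℂ ≃+* ℂ) → Matrix (Fin d) (Fin d) ℂ} (hI : IrD Δ)
    {Ψ : (Fin d → ℂ) →ₗ[ℂ] (X.H →ₗ[ℚ] ℂ)} (h0 : Ψ ≠ 0)
    (hD : ∀ σ w, IsD X σ (Ψ w) (Ψ (Δ σ *ᵥ w))) : Function.Injective Ψ := by
  rw [← LinearMap.ker_eq_bot]
  refine (hI.2 (LinearMap.ker Ψ) fun σ w hw => ?_).resolve_right fun h => ?_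
  · rw [LinearMap.mem_ker] at hw ⊢
    have h1 := hD σ w
    rw [hw] at h1
    exact IsD_zero_eq h1
  · exact h0 (LinearMap.ker_eq_top.1 h)

/-- A part of type `(1, 0)` and a part of type `(0, 1)` are independent. -/
theorem ind_01 {X : AV} {a b : X.H →ₗ[ℚ] ℂ} (ha : H10 X a) (hb : H10 X (tw cj b))
    (h : a + b = 0) : a = 0 ∧ b = 0 := by
  have h1 : IsD X (RingEquiv.refl ℂ) 0 (a - b) := by
    refine ⟨a, b, h.symm, rfl, ?_, ?_⟩
    · have e : tw (RingEquiv.refl ℂ).symm a = a := by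
        ext w
        rfl
      rw [e]
      exact ha
    · have e : tw (RingEquiv.refl ℂ).symm b = b := by
        ext w
        rfl
      rw [e]
      exact hb
  have h2 := IsD_zero_eq h1
  have h3 : b = a := (sub_eq_zero.1 h2).symm
  rw [h3] at h ⊢
  have h4 : (2 : ℂ) • a = 0 := by rw [two_smul]; exact h
  have h5 := (smul_eq_zero.1 h4).resolve_left two_ne_zero
  exact ⟨h5, h5⟩

/-- The main estimate: the multiplicity of the eigenvalue `1` of the Hodge operator. -/
theorem mult_le {m : ℕ} {B : AV} (hB : RelDim m B) {d : ℕ}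
    {Δ : (ℂ ≃+* ℂ) → Matrix (Fin d) (Fin d) ℂ} (hI : IrD Δ) (hR : Rz B d Δ) :
    (1 + Δ (RingEquiv.refl ℂ)).rank ≤ m := by
  obtain ⟨F, iF, iA, ρ, hfin, hreal, hhom, hdim⟩ := hB
  obtain ⟨Φ, hΦ, hΦD⟩ := rz_iff.1 hR
  have hd := hI.1
  -- the space of equivariant maps
  let M : Submodule ℂ ((Fin d → ℂ) →ₗ[ℂ] (B.H →ₗ[ℚ] ℂ)) :=
    { carrier := {Ψ | ∀ σ w, IsD B σ (Ψ w) (Ψ (Δ σ *ᵥ w))}
      add_mem' := by
        intro a b ha hb σ w
        exact IsD_add (ha σ w) (hb σ w)
      zero_mem' := fun σ w => IsD_zero B σ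
      smul_mem' := by
        intro c a ha σ w
        exact IsD_smul c (ha σ w) }
  have hM : ∀ Ψ, Ψ ∈ M ↔ ∀ σ w, IsD B σ (Ψ w) (Ψ (Δ σ *ᵥ w)) := fun _ => Iff.rfl
  have hΦ0 : Φ ≠ 0 := by
    intro h0
    have h1 : Φ (Pi.single ⟨0, hd⟩ 1) = Φ 0 := by rw [h0]; rfl
    have h2 := congrFun (hΦ h1) ⟨0, hd⟩
    rw [Pi.single_eq_same] at h2
    exact one_ne_zero h2
  have hnt : Nontrivial M := ⟨⟨⟨Φ, (hM Φ).2 hΦD⟩, 0, fun h => hΦ0 (congrArg Subtype.val h)⟩⟩
  obtain ⟨α, hα⟩ := Field.exists_primitive_element ℚ F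
  let T : Module.End ℂ M :=
    { toFun := fun Ψ => ⟨(cmpR (ρ α)).comp Ψ.1, (hM _).2 fun σ w =>
        IsD_cmpR (hhom α) ((hM _).1 Ψ.2 σ w)⟩
      map_add' := by
        intro a b
        apply Subtype.ext
        exact LinearMap.comp_add _ _ _
      map_smul' := by
        intro c a
        apply Subtype.ext
        exact LinearMap.comp_smul _ _ _ }
  obtain ⟨lam, hlam⟩ := Module.End.exists_eigenvalue (K := ℂ) (V := M) T
  obtain ⟨⟨Ψ, hΨM⟩, hΨ⟩ := hlam.exists_hasEigenvector
  have hΨ0 : Ψ ≠ 0 := fun h => hΨ.2 (Subtype.ext h)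
  have hΨD := (hM Ψ).1 hΨM
  have hΨi := eqv_inj hI hΨ0 hΨD
  have hΨα : ∀ w, cmpR (ρ α) (Ψ w) = lam • Ψ w := by
    intro w
    have h1 := congrArg (fun x : M => x.1 w) hΨ.apply_eq_smul
    exact h1
  -- the character of `F`
  have hchar : ∀ x : F, ∃ c : ℂ, ∀ w, cmpR (ρ x) (Ψ w) = c • Ψ w := by
    intro x
    have hx : x ∈ Algebra.adjoin ℚ {α} := by
      rw [Algebra.adjoin_eq_top_of_primitive_element (Algebra.IsAlgebraic.isAlgebraic (R := ℚ) α) hα]
      trivial
    induction hx using Algebra.adjoin_induction with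
    | mem x hx =>
      rw [Set.mem_singleton_iff] at hx
      subst hx
      exact ⟨lam, hΨα⟩
    | algebraMap r =>
      refine ⟨(r : ℂ), fun w => ?_⟩
      ext v
      rw [cmp_apply, AlgHom.commutes]
      show Ψ w (r • v) = (r : ℂ) * Ψ w v
      rw [map_smul, Rat.smul_def]
    | add x y _ _ hx hy =>
      obtain ⟨a, ha⟩ := hx
      obtain ⟨b, hb⟩ := hy
      refine ⟨a + b, fun w => ?_⟩
      rw [add_smul, ← ha, ← hb]
      ext v
      rw [cmp_apply, map_add]
      show Ψ w (ρ x v + ρ y v) = Ψ w (ρ x v) + Ψ w (ρ y v)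
      rw [map_add]
    | mul x y _ _ hx hy =>
      obtain ⟨a, ha⟩ := hx
      obtain ⟨b, hb⟩ := hy
      refine ⟨a * b, fun w => ?_⟩
      ext v
      rw [cmp_apply, map_mul]
      have h1 : Ψ w (ρ x (ρ y v)) = a * Ψ w (ρ y v) := LinearMap.congr_fun (ha w) (ρ y v)
      have h2 : Ψ w (ρ y v) = b * Ψ w v := LinearMap.congr_fun (hb w) v
      show Ψ w (ρ x (ρ y v)) = (a * b) * Ψ w v
      rw [h1, h2, mul_assoc]
  choose χ₀ hχ₀ using hchar
  obtain ⟨w₀, hw₀⟩ : ∃ w, Ψ w ≠ 0 := by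
    by_contra hcon
    push Not at hcon
    exact hΨ0 (LinearMap.ext hcon)
  have huniq : ∀ a b : ℂ, a • Ψ w₀ = b • Ψ w₀ → a = b := by
    intro a b hab
    have h1 : (a - b) • Ψ w₀ = 0 := by rw [sub_smul, hab, sub_self]
    exact sub_eq_zero.1 ((smul_eq_zero.1 h1).resolve_right hw₀)
  let χ : F →+* ℂ :=
    { toFun := χ₀
      map_one' := by
        apply huniq
        rw [← hχ₀, one_smul]
        ext v
        rw [cmp_apply, map_one]
        rfl
      map_mul' := by
        intro x y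
        apply huniq
        rw [← hχ₀]
        ext v
        rw [cmp_apply, map_mul]
        have h1 : Ψ w₀ (ρ x (ρ y v)) = χ₀ x * Ψ w₀ (ρ y v) := LinearMap.congr_fun (hχ₀ x w₀) (ρ y v)
        have h2 : Ψ w₀ (ρ y v) = χ₀ y * Ψ w₀ v := LinearMap.congr_fun (hχ₀ y w₀) v
        show Ψ w₀ (ρ x (ρ y v)) = (χ₀ x * χ₀ y) * Ψ w₀ v
        rw [h1, h2, mul_assoc]
      map_zero' := by
        apply huniq
        rw [← hχ₀, zero_smul]
        ext v
        rw [cmp_apply, map_zero]
        show Ψ w₀ 0 = 0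
        exact map_zero _
      map_add' := by
        intro x y
        apply huniq
        rw [← hχ₀, add_smul, ← hχ₀, ← hχ₀]
        ext v
        rw [cmp_apply, map_add]
        show Ψ w₀ (ρ x v + ρ y v) = Ψ w₀ (ρ x v) + Ψ w₀ (ρ y v)
        rw [map_add] }
  have hχ : ∀ x w v, Ψ w (ρ x v) = χ x * Ψ w v := fun x w v => LinearMap.congr_fun (hχ₀ x w) v
  -- the eigenspace
  let E : Submodule ℂ (B.H →ₗ[ℚ] ℂ) :=
    { carrier := {f | ∀ x v, f (ρ x v) = χ x * f v}
      add_mem' := by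
        intro a b ha hb x v
        rw [LinearMap.add_apply, LinearMap.add_apply, ha, hb]
        ring
      zero_mem' := by
        intro x v
        rw [LinearMap.zero_apply, LinearMap.zero_apply, mul_zero]
      smul_mem' := by
        intro c a ha x v
        rw [LinearMap.smul_apply, LinearMap.smul_apply, ha, smul_eq_mul, smul_eq_mul]
        ring }
  have hE : ∀ f, f ∈ E ↔ ∀ x v, f (ρ x v) = χ x * f v := fun _ => Iff.rfl
  have hEdim : finrank ℂ E * finrank ℚ F ≤ finrank ℚ B.H := by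
    let i1 : Module F B.H := Module.compHom B.H (ρ : F →+* Module.End ℚ B.H)
    have hsm : ∀ (x : F) (v : B.H), x • v = ρ x v := fun _ _ => rfl
    have i2 : IsScalarTower ℚ F B.H := ⟨fun r x v => by
      rw [hsm, hsm, map_smul]
      rfl⟩
    have i3 : Module.Finite F B.H := Module.Finite.of_restrictScalars_finite ℚ F B.H
    have h1 : finrank ℚ F * finrank F B.H = finrank ℚ B.H := Module.finrank_mul_finrank ℚ F B.H
    let b := Module.finBasis F B.H
    let ev : E →ₗ[ℂ] (Fin (finrank F B.H) → ℂ) :=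
      { toFun := fun f i => f.1 (b i)
        map_add' := fun _ _ => rfl
        map_smul' := fun _ _ => rfl }
    have hev : Function.Injective ev := by
      rw [injective_iff_map_eq_zero]
      intro f hf
      apply Subtype.ext
      ext v
      rw [← b.sum_repr v, map_sum]
      refine Finset.sum_eq_zero fun i _ => ?_
      rw [hsm, (hE _).1 f.2]
      have h2 : f.1 (b i) = 0 := congrFun hf i
      rw [h2, mul_zero]
    have h2 := LinearMap.finrank_le_finrank_of_injective hev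
    rw [Module.finrank_fin_fun] at h2
    calc finrank ℂ E * finrank ℚ F ≤ finrank F B.H * finrank ℚ F := Nat.mul_le_mul_right _ h2
      _ = finrank ℚ B.H := by rw [mul_comm, h1]
  -- the part of type `(1, 0)`
  let R := LinearMap.range (1 + Δ (RingEquiv.refl ℂ)).mulVecLin
  have hRr : (1 + Δ (RingEquiv.refl ℂ)).rank = finrank ℂ R := rfl
  let b := Module.finBasis ℂ R
  let f : Fin (finrank ℂ R) → (B.H →ₗ[ℚ] ℂ) := fun i => Ψ (b i : Fin d → ℂ)
  have hf10' : ∀ w ∈ R, H10 B (Ψ w) := by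
    rintro w ⟨v, rfl⟩
    rw [Matrix.mulVecLin_apply, Matrix.add_mulVec, Matrix.one_mulVec, map_add]
    obtain ⟨a, c, h1, h2, h3, -⟩ := hΨD (RingEquiv.refl ℂ) v
    rw [h1, h2]
    have h4 : a + c + (a - c) = (2 : ℂ) • a := by
      rw [two_smul]
      abel
    rw [h4]
    have e : tw (RingEquiv.refl ℂ).symm a = a := by
      ext w
      rfl
    rw [e] at h3
    exact H10_smul 2 h3
  have htwtw : ∀ g : B.H →ₗ[ℚ] ℂ, tw cj (tw cj g) = g := by
    intro g
    ext v
    exact Complex.conj_conj _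
  have hsum : ∀ c : Fin (finrank ℂ R) → ℂ, ∑ i, c i • f i = Ψ (∑ i, c i • b i : R) := by
    intro c
    rw [Submodule.coe_sum, map_sum]
    refine Finset.sum_congr rfl fun i _ => ?_
    rw [Submodule.coe_smul, map_smul]
  have hfz : ∀ c : Fin (finrank ℂ R) → ℂ, ∑ i, c i • f i = 0 → c = 0 := by
    intro c hc
    rw [hsum] at hc
    have h1 : ((∑ i, c i • b i : R) : Fin d → ℂ) = 0 := hΨi (hc.trans (map_zero Ψ).symm)
    have h2 : (∑ i, c i • b i : R) = 0 := Subtype.ext h1
    funext i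
    exact (Fintype.linearIndependent_iff.1 b.linearIndependent) c h2 i
  have hind : LinearIndependent ℂ (Sum.elim f fun i => tw cj (f i)) := by
    rw [Fintype.linearIndependent_iff]
    intro c hc
    rw [Fintype.sum_sum_type] at hc
    simp only [Sum.elim_inl, Sum.elim_inr] at hc
    have h1 : ∑ i, c (Sum.inr i) • tw cj (f i) = tw cj (∑ i, cj (c (Sum.inr i)) • f i) := by
      ext v
      rw [tw_apply, LinearMap.sum_apply, LinearMap.sum_apply, map_sum]
      refine Finset.sum_congr rfl fun i _ => ?_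
      rw [LinearMap.smul_apply, LinearMap.smul_apply, smul_eq_mul, smul_eq_mul, map_mul, tw_apply]
      have h2 : cj (cj (c (Sum.inr i))) = c (Sum.inr i) := Complex.conj_conj _
      rw [h2]
    rw [h1] at hc
    obtain ⟨h2, h3⟩ := ind_01 (by rw [hsum]; exact hf10' _ (Subtype.mem _)) (by
      rw [htwtw, hsum]
      exact hf10' _ (Subtype.mem _)) hc
    have h4 := hfz _ h2
    have h5 : ∑ i, cj (c (Sum.inr i)) • f i = 0 := by
      have h6 := congrArg (fun g : B.H →ₗ[ℚ] ℂ => tw cj g) h3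
      beta_reduce at h6
      rw [htwtw] at h6
      rw [h6]
      ext v
      exact map_zero cj
    have h6 := hfz _ h5
    rintro (i | i)
    · exact congrFun h4 i
    · exact (map_eq_zero_iff cj cj.injective).1 (congrFun h6 i)
  have hfE : ∀ i, f i ∈ E := fun i => (hE _).2 fun x v => hχ x _ v
  have hgE : ∀ i, tw cj (f i) ∈ E := fun i => (hE _).2 fun x v => by
    rw [tw_apply, tw_apply, hχ, map_mul]
    congr 1
    exact hreal χ x
  let Fv : Fin (finrank ℂ R) ⊕ Fin (finrank ℂ R) → E :=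
    Sum.elim (fun i => ⟨f i, hfE i⟩) (fun i => ⟨tw cj (f i), hgE i⟩)
  have hFv : LinearIndependent ℂ Fv := by
    apply LinearIndependent.of_comp E.subtype
    have h1 : (E.subtype : E → (B.H →ₗ[ℚ] ℂ)) ∘ Fv = Sum.elim f fun i => tw cj (f i) := by
      funext i
      rcases i with i | i <;> rfl
    rw [h1]
    exact hind
  have h1 := hFv.fintype_card_le_finrank
  rw [Fintype.card_sum, Fintype.card_fin] at h1
  rw [hRr]
  have h2 := B.rank
  have hF0 : 0 < finrank ℚ F := Module.finrank_pos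
  refine Nat.le_of_mul_le_mul_right ?_ hF0
  have h3 : (finrank ℂ R + finrank ℂ R) * finrank ℚ F ≤ finrank ℂ E * finrank ℚ F :=
    Nat.mul_le_mul_right _ h1
  nlinarith

/-- The families of modules are odd. -/
theorem odd_rz {X : AV} {d : ℕ} {Δ : (ℂ ≃+* ℂ) → Matrix (Fin d) (Fin d) ℂ} (hR : Rz X d Δ)
    (σ : ℂ ≃+* ℂ) : Δ (cj.trans σ) = -Δ σ := by
  obtain ⟨Φ, hΦ, hD⟩ := rz_iff.1 hR
  have h1 : ∀ w, Δ (cj.trans σ) *ᵥ w = (-Δ σ) *ᵥ w := by
    intro w
    apply hΦ
    have h2 := hD σ w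
    obtain ⟨a, b, h3, h4, h5, h6⟩ := h2
    have h7 : IsD X (cj.trans σ) (Φ w) (-(Φ (Δ σ *ᵥ w))) := by
      refine ⟨b, a, by rw [h3, add_comm], by rw [h4, neg_sub], ?_, ?_⟩
      · have e : tw (cj.trans σ).symm b = tw cj (tw σ.symm b) := by
          ext v
          rfl
        rw [e]
        exact h6
      · have e : tw cj (tw (cj.trans σ).symm a) = tw σ.symm a := by
          ext v
          exact Complex.conj_conj _
        rw [e]
        exact h5
    have h8 := IsD_unique (hD (cj.trans σ) w) h7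
    rw [h8, Matrix.neg_mulVec, map_neg]
  ext i j
  have h2 := congrFun (h1 (Pi.single j 1)) i
  rw [Matrix.mulVec_single_one, Matrix.mulVec_single_one] at h2
  exact h2

/-- Abelian varieties with real multiplication. -/
theorem ab_rel {m : ℕ} {B : AV} (hB : RelDim m B) : AB m B := by
  intro d Δ hI hR
  have key : ∀ σ, (1 + Δ σ).rank ≤ m := by
    intro σ
    have h1 := mult_le hB (cjf_ir hI σ.symm) (cjf_rz σ.symm hR)
    have h2 : 1 + Cjf Δ σ.symm (RingEquiv.refl ℂ) = (1 + Δ σ).map σ.symm := by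
      have h3 : (RingEquiv.refl ℂ).trans σ.symm.symm = σ := by
        ext z
        rfl
      rw [GK7.map_add', GK7.map_one']
      unfold Cjf
      rw [h3]
    rw [h2] at h1
    have h3 := rank_map_le σ ((1 + Δ σ).map σ.symm)
    rw [GK7.map_map_symm] at h3
    exact h3.trans h1
  intro σ
  refine ⟨key σ, ?_⟩
  have h1 := key (cj.trans σ)
  rwa [odd_rz hR, ← sub_eq_add_neg] at h1

/-- Abelian varieties generated by others. -/
theorem ab_gen {m : ℕ} {A : AV} {ι : Type} (B : ι → AV) (i : ∀ k, (B k).H →ₗ[ℚ] A.H)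
    (hi : ∀ k, IsHom (B k) A (i k)) (hg : ⨆ k, LinearMap.range (i k) = ⊤)
    (hB : ∀ k, AB m (B k)) : AB m A := by
  intro d Δ hI hR
  obtain ⟨Φ, hΦ, hD⟩ := rz_iff.1 hR
  have hd := hI.1
  obtain ⟨k, hk⟩ : ∃ k, (cmpR (i k)).comp Φ ≠ 0 := by
    by_contra hcon
    push Not at hcon
    have h1 : Φ (Pi.single ⟨0, hd⟩ 1) = 0 := by
      have h2 : (⊤ : Submodule ℚ A.H) ≤ LinearMap.ker (Φ (Pi.single ⟨0, hd⟩ 1)) := by
        rw [← hg, iSup_le_iff]
        rintro k _ ⟨v, rfl⟩
        rw [LinearMap.mem_ker]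
        exact LinearMap.congr_fun (LinearMap.congr_fun (hcon k) (Pi.single ⟨0, hd⟩ 1)) v
      ext v
      exact h2 (Submodule.mem_top)
    have h2 := congrFun (hΦ (h1.trans (map_zero Φ).symm)) ⟨0, hd⟩
    rw [Pi.single_eq_same] at h2
    exact one_ne_zero h2
  have hD' : ∀ σ w, IsD (B k) σ ((cmpR (i k)).comp Φ w) ((cmpR (i k)).comp Φ (Δ σ *ᵥ w)) :=
    fun σ w => IsD_cmpR (hi k) (hD σ w)
  exact hB k d Δ hI (rz_iff.2 ⟨_, eqv_inj hI hk hD', hD'⟩)

end

end Pool.Agent.H17.Bn
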