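import Mathlib
import Pool.Agent.H17.Bn.AvB

/-!
# The multiplicities of abelian varieties with multiplication by number fields
-/

set_option linter.unusedSectionVars false

namespace Pool.Agent.H17.Bn

open Matrix Module Pool.Agent.NH32 Pool.Agent.W437.HC Pool.Agent.W437.HD Pool.Agent.TH504.CB
  Pool.Agent.Y90 Pool.Agent.NH32.GK13 Pool.Agent.NH32.GJ14
open Pool.Agent.W548.Odd hiding cv

noncomputable section

/-- The abelian variety `B` has multiplication by a number field `E` such that each embedding of `E`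
in `ℂ` occurs at most `m` times in the tangent space of `B`: there is a field `E` of finite degree
which acts on `H_1(B, ℚ)` and, compatibly, on the tangent space, and each complex subspace of the
tangent space on which `E` acts through an embedding `τ` has dimension at most `m`. For `E = ℚ` the
condition is `dim B ≤ m`; if `E` is an imaginary quadratic field and `(p, q)` is the signature of the
action, the condition is `p, q ≤ m`. -/
def MultLe (m : ℕ) (B : AV) : Prop :=
  ∃ (E : Type) (_ : Field E) (_ : Algebra ℚ E) (ρ : E →ₐ[ℚ] Module.End ℚ B.H)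
    (ρT : E →+* Module.End ℂ B.T), FiniteDimensional ℚ E ∧
    (∀ x v, ρT x (B.per v) = B.per (ρ x v)) ∧
    ∀ (τ : E →+* ℂ) (U : Submodule ℂ B.T), (∀ t ∈ U, ∀ x, ρT x t = τ x • t) → finrank ℂ U ≤ m

/-- The kernels of a linear map and of its transpose. -/
theorem ker_dual {T : Type} [AddCommGroup T] [Module ℂ T] [FiniteDimensional ℂ T]
    (A : T →ₗ[ℂ] T) : finrank ℂ (LinearMap.ker A.dualMap) = finrank ℂ (LinearMap.ker A) := by
  have h1 := LinearMap.finrank_range_add_finrank_ker A
  have h2 := LinearMap.finrank_range_add_finrank_ker A.dualMap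
  have h3 := LinearMap.finrank_range_dualMap_eq_finrank_range A
  rw [Subspace.dual_finrank_eq] at h2
  omega

/-- Functionals on `H_1` given by the same functional on the tangent space. -/
theorem ext_T {X : AV} {l l' : X.T →ₗ[ℂ] ℂ} (h : ∀ v, l (X.per v) = l' (X.per v)) : l = l' := by
  have h1 : ∀ x : X.T, l x = l' x := by
    intro x
    have hx : x ∈ Submodule.span ℝ (Set.range X.per) := by rw [X.span]; trivial
    induction hx using Submodule.span_induction with
    | mem x hx =>
      obtain ⟨w, rfl⟩ := hx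
      exact h w
    | zero => rw [map_zero, map_zero]
    | add x y _ _ hx hy => rw [map_add, map_add, hx, hy]
    | smul c x _ hx =>
      have e1 : c • x = (c : ℂ) • x := (Complex.coe_smul c x).symm
      rw [e1, map_smul, map_smul, hx]
  exact LinearMap.ext h1

/-- The main estimate: the multiplicity of the eigenvalue `1` of the Hodge operator. -/
theorem mult_leM {m : ℕ} {B : AV} (hB : MultLe m B) {d : ℕ}
    {Δ : (ℂ ≃+* ℂ) → Matrix (Fin d) (Fin d) ℂ} (hI : IrD Δ) (hR : Rz B d Δ) :
    (1 + Δ (RingEquiv.refl ℂ)).rank ≤ m := by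
  obtain ⟨F, iF, iA, ρ, ρT, hfin, hcomp, hdim⟩ := hB
  obtain ⟨Φ, hΦ, hΦD⟩ := rz_iff.1 hR
  have hd := hI.1
  have hhom : ∀ x, IsHom B B (ρ x) := fun x => ⟨ρT x, fun v => hcomp x v⟩
  -- the space of equivariant maps
  let M : Submodule ℂ ((Fin d → ℂ) →ₗ[ℂ] (B.H →ₗ[ℚ] ℂ)) :=
    { carrier := {Ψ | ∀ σ w, IsD B σ (Ψ w) (Ψ (Δ σ *ᵥ w))}
      add_mem' := by
        intro a b ha hb σ w
        exact IsD_add (ha σ w) (hb σ w)
      zero_mem' := fun σ w => IsD_zero B σ
      smul_mem' := by
        intro c a ha σ w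
        exact IsD_smul c (ha σ w) }
  have hM : ∀ Ψ, Ψ ∈ M ↔ ∀ σ w, IsD B σ (Ψ w) (Ψ (Δ σ *ᵥ w)) := fun _ => Iff.rfl
  have hΦ0 : Φ ≠ 0 := by
    intro h0
    have h1 : Φ (Pi.single ⟨0, hd⟩ 1) = Φ 0 := by rw [h0]; rfl
    have h2 := congrFun (hΦ h1) ⟨0, hd⟩
    rw [Pi.single_eq_same] at h2
    exact one_ne_zero h2
  have hnt : Nontrivial M := ⟨⟨⟨Φ, (hM Φ).2 hΦD⟩, 0, fun h => hΦ0 (congrArg Subtype.val h)⟩⟩
  obtain ⟨α, hα⟩ := Field.exists_primitive_element ℚ F
  let T : Module.End ℂ M :=
    { toFun := fun Ψ => ⟨(cmpR (ρ α)).comp Ψ.1, (hM _).2 fun σ w =>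
        IsD_cmpR (hhom α) ((hM _).1 Ψ.2 σ w)⟩
      map_add' := by
        intro a b
        apply Subtype.ext
        exact LinearMap.comp_add _ _ _
      map_smul' := by
        intro c a
        apply Subtype.ext
        exact LinearMap.comp_smul _ _ _ }
  obtain ⟨lam, hlam⟩ := Module.End.exists_eigenvalue (K := ℂ) (V := M) T
  obtain ⟨⟨Ψ, hΨM⟩, hΨ⟩ := hlam.exists_hasEigenvector
  have hΨ0 : Ψ ≠ 0 := fun h => hΨ.2 (Subtype.ext h)
  have hΨD := (hM Ψ).1 hΨM
  have hΨi := eqv_inj hI hΨ0 hΨD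
  have hΨα : ∀ w, cmpR (ρ α) (Ψ w) = lam • Ψ w := by
    intro w
    have h1 := congrArg (fun x : M => x.1 w) hΨ.apply_eq_smul
    exact h1
  have hadj : ∀ x : F, x ∈ Algebra.adjoin ℚ {α} := by
    intro x
    rw [Algebra.adjoin_eq_top_of_primitive_element (Algebra.IsAlgebraic.isAlgebraic (R := ℚ) α) hα]
    trivial
  -- the character of `F`
  have hchar : ∀ x : F, ∃ c : ℂ, ∀ w, cmpR (ρ x) (Ψ w) = c • Ψ w := by
    intro x
    have hx := hadj x
    induction hx using Algebra.adjoin_induction with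
    | mem x hx =>
      rw [Set.mem_singleton_iff] at hx
      subst hx
      exact ⟨lam, hΨα⟩
    | algebraMap r =>
      refine ⟨(r : ℂ), fun w => ?_⟩
      ext v
      rw [cmp_apply, AlgHom.commutes]
      show Ψ w (r • v) = (r : ℂ) * Ψ w v
      rw [map_smul, Rat.smul_def]
    | add x y _ _ hx hy =>
      obtain ⟨a, ha⟩ := hx
      obtain ⟨b, hb⟩ := hy
      refine ⟨a + b, fun w => ?_⟩
      rw [add_smul, ← ha, ← hb]
      ext v
      rw [cmp_apply, map_add]
      show Ψ w (ρ x v + ρ y v) = Ψ w (ρ x v) + Ψ w (ρ y v)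
      rw [map_add]
    | mul x y _ _ hx hy =>
      obtain ⟨a, ha⟩ := hx
      obtain ⟨b, hb⟩ := hy
      refine ⟨a * b, fun w => ?_⟩
      ext v
      rw [cmp_apply, map_mul]
      have h1 : Ψ w (ρ x (ρ y v)) = a * Ψ w (ρ y v) := LinearMap.congr_fun (ha w) (ρ y v)
      have h2 : Ψ w (ρ y v) = b * Ψ w v := LinearMap.congr_fun (hb w) v
      show Ψ w (ρ x (ρ y v)) = (a * b) * Ψ w v
      rw [h1, h2, mul_assoc]
  choose χ₀ hχ₀ using hchar
  obtain ⟨w₀, hw₀⟩ : ∃ w, Ψ w ≠ 0 := by
    by_contra hcon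
    push Not at hcon
    exact hΨ0 (LinearMap.ext hcon)
  have huniq : ∀ a b : ℂ, a • Ψ w₀ = b • Ψ w₀ → a = b := by
    intro a b hab
    have h1 : (a - b) • Ψ w₀ = 0 := by rw [sub_smul, hab, sub_self]
    exact sub_eq_zero.1 ((smul_eq_zero.1 h1).resolve_right hw₀)
  let χ : F →+* ℂ :=
    { toFun := χ₀
      map_one' := by
        apply huniq
        rw [← hχ₀, one_smul]
        ext v
        rw [cmp_apply, map_one]
        rfl
      map_mul' := by
        intro x y
        apply huniq
        rw [← hχ₀]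
        ext v
        rw [cmp_apply, map_mul]
        have h1 : Ψ w₀ (ρ x (ρ y v)) = χ₀ x * Ψ w₀ (ρ y v) := LinearMap.congr_fun (hχ₀ x w₀) (ρ y v)
        have h2 : Ψ w₀ (ρ y v) = χ₀ y * Ψ w₀ v := LinearMap.congr_fun (hχ₀ y w₀) v
        show Ψ w₀ (ρ x (ρ y v)) = (χ₀ x * χ₀ y) * Ψ w₀ v
        rw [h1, h2, mul_assoc]
      map_zero' := by
        apply huniq
        rw [← hχ₀, zero_smul]
        ext v
        rw [cmp_apply, map_zero]
        show Ψ w₀ 0 = 0
        exact map_zero _
      map_add' := by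
        intro x y
        apply huniq
        rw [← hχ₀, add_smul, ← hχ₀, ← hχ₀]
        ext v
        rw [cmp_apply, map_add]
        show Ψ w₀ (ρ x v + ρ y v) = Ψ w₀ (ρ x v) + Ψ w₀ (ρ y v)
        rw [map_add] }
  have hχ : ∀ x w v, Ψ w (ρ x v) = χ x * Ψ w v := fun x w v => LinearMap.congr_fun (hχ₀ x w) v
  -- the part of type `(1, 0)`
  let R := LinearMap.range (1 + Δ (RingEquiv.refl ℂ)).mulVecLin
  have hRr : (1 + Δ (RingEquiv.refl ℂ)).rank = finrank ℂ R := rfl
  let b := Module.finBasis ℂ R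
  have hf10' : ∀ w ∈ R, H10 B (Ψ w) := by
    rintro w ⟨v, rfl⟩
    rw [Matrix.mulVecLin_apply, Matrix.add_mulVec, Matrix.one_mulVec, map_add]
    obtain ⟨a, c, h1, h2, h3, -⟩ := hΨD (RingEquiv.refl ℂ) v
    rw [h1, h2]
    have h4 : a + c + (a - c) = (2 : ℂ) • a := by
      rw [two_smul]
      abel
    rw [h4]
    have e : tw (RingEquiv.refl ℂ).symm a = a := by
      ext w
      rfl
    rw [e] at h3
    exact H10_smul 2 h3
  choose l hl using fun i => hf10' (b i : Fin d → ℂ) (b i).2
  -- the functionals are eigenvectors of the transpose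
  have hlT : ∀ i x, (l i).comp (ρT x) = χ x • l i := by
    intro i x
    apply ext_T
    intro v
    show l i (ρT x (B.per v)) = χ x * l i (B.per v)
    rw [hcomp, ← hl, ← hl, hχ]
  have hlK : ∀ i, l i ∈ LinearMap.ker (ρT α - χ α • 1 : Module.End ℂ B.T).dualMap := by
    intro i
    rw [LinearMap.mem_ker]
    apply LinearMap.ext
    intro t
    have h1 := LinearMap.congr_fun (hlT i α) t
    show l i ((ρT α - χ α • (1 : Module.End ℂ B.T)) t) = 0
    rw [LinearMap.sub_apply, map_sub, LinearMap.smul_apply, map_smul]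
    have h2 : l i (ρT α t) = χ α * l i t := h1
    rw [h2]
    show χ α * l i t - χ α * l i t = 0
    ring
  let Fv : Fin (finrank ℂ R) → LinearMap.ker (ρT α - χ α • 1 : Module.End ℂ B.T).dualMap :=
    fun i => ⟨l i, hlK i⟩
  have hFv : LinearIndependent ℂ Fv := by
    rw [Fintype.linearIndependent_iff]
    intro c hc
    have h1 : ∑ i, c i • l i = 0 := by
      have := congrArg Subtype.val hc
      rwa [Submodule.coe_sum] at this
    have h2 : Ψ ((∑ i, c i • b i : R) : Fin d → ℂ) = 0 := by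
      rw [Submodule.coe_sum, map_sum]
      ext v
      rw [LinearMap.sum_apply, LinearMap.zero_apply]
      have h3 := LinearMap.congr_fun h1 (B.per v)
      rw [LinearMap.sum_apply, LinearMap.zero_apply] at h3
      rw [← h3]
      refine Finset.sum_congr rfl fun i _ => ?_
      rw [Submodule.coe_smul, map_smul, LinearMap.smul_apply, LinearMap.smul_apply, hl]
    have h3 : ((∑ i, c i • b i : R) : Fin d → ℂ) = 0 := hΨi (h2.trans (map_zero Ψ).symm)
    have h4 : (∑ i, c i • b i : R) = 0 := Subtype.ext h3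
    exact (Fintype.linearIndependent_iff.1 b.linearIndependent) c h4
  have h1 := hFv.fintype_card_le_finrank
  rw [Fintype.card_fin, ker_dual] at h1
  rw [hRr]
  refine h1.trans (hdim χ _ ?_)
  intro t ht x
  have ht1 : ρT α t = χ α • t := by
    rw [LinearMap.mem_ker, LinearMap.sub_apply, LinearMap.smul_apply, sub_eq_zero] at ht
    exact ht
  have hx := hadj x
  induction hx using Algebra.adjoin_induction with
  | mem x hx =>
    rw [Set.mem_singleton_iff] at hx
    subst hx
    exact ht1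
  | algebraMap r =>
    have e1 : ρT.comp (algebraMap ℚ F) =
        (algebraMap ℂ (Module.End ℂ B.T)).comp (algebraMap ℚ ℂ) := Subsingleton.elim _ _
    have e2 : χ.comp (algebraMap ℚ F) = algebraMap ℚ ℂ := Subsingleton.elim _ _
    have e3 := RingHom.congr_fun e1 r
    have e4 := RingHom.congr_fun e2 r
    rw [RingHom.comp_apply, RingHom.comp_apply] at e3
    rw [RingHom.comp_apply] at e4
    rw [e3, e4]
    rfl
  | add x y _ _ hx hy =>
    rw [map_add, LinearMap.add_apply, hx, hy, map_add, add_smul]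
  | mul x y _ _ hx hy =>
    rw [map_mul, Module.End.mul_apply, hy, map_smul, hx, map_mul, smul_smul, mul_comm]

/-- Abelian varieties with small multiplicities. -/
theorem ab_mult {m : ℕ} {B : AV} (hB : MultLe m B) : AB m B := by
  intro d Δ hI hR
  have key : ∀ σ, (1 + Δ σ).rank ≤ m := by
    intro σ
    have h1 := mult_leM hB (cjf_ir hI σ.symm) (cjf_rz σ.symm hR)
    have h2 : 1 + Cjf Δ σ.symm (RingEquiv.refl ℂ) = (1 + Δ σ).map σ.symm := by
      have h3 : (RingEquiv.refl ℂ).trans σ.symm.symm = σ := by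
        ext z
        rfl
      rw [GK7.map_add', GK7.map_one']
      unfold Cjf
      rw [h3]
    rw [h2] at h1
    have h3 := rank_map_le σ ((1 + Δ σ).map σ.symm)
    rw [GK7.map_map_symm] at h3
    exact h3.trans h1
  intro σ
  refine ⟨key σ, ?_⟩
  have h1 := key (cj.trans σ)
  rwa [odd_rz hR, ← sub_eq_add_neg] at h1

end

end Pool.Agent.H17.Bn
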