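import Mathlib
import Pool.Graph.R_pool_sql_team_seeded_3dad9d7b.NH32.GD8
import Pool.Graph.R_pool_sql_team_seeded_3dad9d7b.NH32.GJ7
import Pool.Graph.R_pool_sql_team_seeded_3dad9d7b.NH32.GJ8

/-!
# Determinant relations of bounded degree
-/

set_option linter.unusedSectionVars false

namespace Pool.Agent.H17.Bn

open Matrix Module Pool.Agent.NH32 Pool.Agent.W437.HC Pool.Agent.W437.HD Pool.Agent.TH504.CB
  Pool.Agent.Y90
open Pool.Agent.W548.Odd hiding cv
open WJ2 GJ8

noncomputable section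

variable {B : Type} [Fintype B] [DecidableEq B]

/-- The determinant times a product of functionals, as a tensor. -/
def dR {d r : ℕ} (P : Fin d → B → ℂ) (f : Fin r → B → ℂ) (J : Fin d ⊕ Fin r → B) : ℂ :=
  WJ7.D P (fun k => J (Sum.inl k)) * ∏ j, f j (J (Sum.inr j))

theorem ev_eq {r : ℕ} {f : Fin r → B → ℂ} {u : Matrix B B ℂ} {b : Fin r → ℂ}
    (hf : ∀ j, u *ᵥ f j = b j • f j) (j : Fin r) (i : B) :
    ∑ c, u i c * f j c = b j * f j i := congrFun (hf j) i

theorem kp_dR {d r : ℕ} {P : Fin d → B → ℂ} {f : Fin r → B → ℂ} {u : Matrix B B ℂ}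
    {C : Matrix (Fin d) (Fin d) ℂ} {b : Fin r → ℂ} (hC : ∀ i, u *ᵥ P i = ∑ k, C k i • P k)
    (hf : ∀ j, u *ᵥ f j = b j • f j) :
    kp (Fin d ⊕ Fin r) u *ᵥ dR P f = (det C * ∏ j, b j) • dR P f := by
  funext I
  rw [mvA, ← Equiv.sum_comp (Equiv.sumArrowEquivProdArrow (Fin d) (Fin r) B).symm,
    Fintype.sum_prod_type]
  have h1 : ∀ (J₁ : Fin d → B) (J₂ : Fin r → B),
      kp (Fin d ⊕ Fin r) u I ((Equiv.sumArrowEquivProdArrow (Fin d) (Fin r) B).symm (J₁, J₂)) *
        dR P f ((Equiv.sumArrowEquivProdArrow (Fin d) (Fin r) B).symm (J₁, J₂)) =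
      ((∏ k, u (I (Sum.inl k)) (J₁ k)) * WJ7.D P J₁) *
        ∏ j, (u (I (Sum.inr j)) (J₂ j) * f j (J₂ j)) := by
    intro J₁ J₂
    unfold dR
    rw [kp_apply, Fintype.prod_sum_type, Finset.prod_mul_distrib]
    simp only [Equiv.sumArrowEquivProdArrow_symm_apply_inl,
      Equiv.sumArrowEquivProdArrow_symm_apply_inr]
    ring
  simp only [h1]
  have h2 : ∀ J₁ : Fin d → B, ∑ J₂ : Fin r → B,
      ((∏ k, u (I (Sum.inl k)) (J₁ k)) * WJ7.D P J₁) *
        ∏ j, (u (I (Sum.inr j)) (J₂ j) * f j (J₂ j)) =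
      ((∏ k, u (I (Sum.inl k)) (J₁ k)) * WJ7.D P J₁) *
        ∏ j, (b j * f j (I (Sum.inr j))) := by
    intro J₁
    rw [← Finset.mul_sum]
    congr 1
    have h3 := Finset.prod_univ_sum (fun _ : Fin r => (Finset.univ : Finset B))
      (fun j c => u (I (Sum.inr j)) c * f j c)
    rw [Fintype.piFinset_univ] at h3
    rw [← h3]
    exact Finset.prod_congr rfl fun j _ => ev_eq hf j _
  simp only [h2]
  rw [← Finset.sum_mul, WJ7.kp_block P u C (GD8.mat_eq hC) (fun k => I (Sum.inl k)),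
    Finset.prod_mul_distrib, Pi.smul_apply, smul_eq_mul]
  unfold dR
  ring

theorem dm_dR {d r : ℕ} {P : Fin d → B → ℂ} {f : Fin r → B → ℂ} {u : Matrix B B ℂ}
    {C : Matrix (Fin d) (Fin d) ℂ} {b : Fin r → ℂ} (hC : ∀ i, u *ᵥ P i = ∑ k, C k i • P k)
    (hf : ∀ j, u *ᵥ f j = b j • f j) :
    dm (Fin d ⊕ Fin r) u *ᵥ dR P f = (trace C + ∑ j, b j) • dR P f := by
  funext I
  rw [dm_mulVec_apply, Fintype.sum_sum_type, Pi.smul_apply, smul_eq_mul, add_mul]
  congr 1
  · have h1 : ∀ (k : Fin d) (c : B), dR P f (Function.update I (Sum.inl k) c) =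
        WJ7.D P (Function.update (fun k => I (Sum.inl k)) k c) * ∏ j, f j (I (Sum.inr j)) := by
      intro k c
      unfold dR
      congr 1
      · congr 1
        funext k'
        by_cases h : k' = k
        · subst h; simp
        · rw [Function.update_of_ne h, Function.update_of_ne (by simpa using h)]
    have h2 : ∑ k : Fin d, ∑ c, u (I (Sum.inl k)) c * dR P f (Function.update I (Sum.inl k) c) =
        (∑ k : Fin d, ∑ c, u (I (Sum.inl k)) c *
          WJ7.D P (Function.update (fun k => I (Sum.inl k)) k c)) * ∏ j, f j (I (Sum.inr j)) := by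
      rw [Finset.sum_mul]
      refine Finset.sum_congr rfl fun k _ => ?_
      rw [Finset.sum_mul]
      refine Finset.sum_congr rfl fun c _ => ?_
      rw [h1, mul_assoc]
    rw [h2, WJ7.dm_block P u C (GD8.mat_eq hC) (fun k => I (Sum.inl k)), mul_assoc]
    rfl
  · rw [Finset.sum_mul]
    refine Finset.sum_congr rfl fun k _ => ?_
    have h1 : ∀ c : B, dR P f (Function.update I (Sum.inr k) c) =
        WJ7.D P (fun k => I (Sum.inl k)) *
          (f k c * ∏ j ∈ Finset.univ.erase k, f j (I (Sum.inr j))) := by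
      intro c
      unfold dR
      congr 1
      rw [← Finset.mul_prod_erase _ _ (Finset.mem_univ k), Function.update_self]
      congr 1
      refine Finset.prod_congr rfl fun j hj => ?_
      rw [Function.update_of_ne]
      simpa using Finset.ne_of_mem_erase hj
    simp only [h1]
    have h2 : ∑ c, u (I (Sum.inr k)) c * (WJ7.D P (fun k => I (Sum.inl k)) *
        (f k c * ∏ j ∈ Finset.univ.erase k, f j (I (Sum.inr j)))) =
        (∑ c, u (I (Sum.inr k)) c * f k c) * (WJ7.D P (fun k => I (Sum.inl k)) *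
          ∏ j ∈ Finset.univ.erase k, f j (I (Sum.inr j))) := by
      rw [Finset.sum_mul]
      refine Finset.sum_congr rfl fun c _ => ?_
      ring
    rw [h2, ev_eq hf k]
    unfold dR
    rw [← Finset.mul_prod_erase _ _ (Finset.mem_univ k)]
    ring

theorem dR_ne {d r : ℕ} {P : Fin d → B → ℂ} {f : Fin r → B → ℂ} (hP : LinearIndependent ℂ P)
    (hf : ∀ j, f j ≠ 0) : dR P f ≠ 0 := by
  obtain ⟨Q, hQ⟩ := GD8.exists_left hP
  obtain ⟨J₁, hJ₁⟩ := WJ7.exists_D_ne P Q hQ
  have hex : ∀ j, ∃ c, f j c ≠ 0 := fun j => Function.ne_iff.1 (hf j)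
  choose J₂ hJ₂ using hex
  intro h0
  have h1 := congrFun h0 (Sum.elim J₁ J₂)
  unfold dR at h1
  have h2 : (WJ7.D P fun k => (Sum.elim J₁ J₂ : Fin d ⊕ Fin r → B) (Sum.inl k)) = WJ7.D P J₁ := rfl
  rw [h2] at h1
  refine (mul_ne_zero hJ₁ ?_) h1
  exact Finset.prod_ne_zero_iff.2 fun j _ => hJ₂ j

variable {Om : Matrix B B ℂ} {L : Submodule ℂ (Matrix B B ℂ)}

/-- The relation given by the tensor. -/
theorem rel_tensor {u : USp Om} {n : ℕ}
    (hn : ∀ x ∈ InvL L (Fin n), kp (Fin n) (mt u) *ᵥ x = x)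
    {d r : ℕ} (hdr : d + r = n) {P : Matrix B (Fin d) ℂ} {Q : Matrix (Fin d) B ℂ}
    (hQP : Q * P = 1) (hcL : ∀ X ∈ L, X * (P * Q) = P * Q * X)
    (hcu : mt u * (P * Q) = P * Q * mt u) {E : Fin r → Matrix B B ℂ} (hE : ∀ j, Li L (E j))
    {b : Fin r → ℂ} (hb : ∀ j, mt u * E j = b j • E j)
    (hrel : ∀ X ∈ L, trace (X * (P * Q)) + ∑ j, trace (X * E j) = 0) :
    det (mt u * (P * Q) + 1 - P * Q) * ∏ j, b j = 1 := by
  have hw : ∀ j, ∃ w : B → ℂ, E j *ᵥ w ≠ 0 := by
    intro j
    by_contra hcon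
    push Not at hcon
    apply (hE j).1.2.2.2.1
    ext i k
    have := congrFun (hcon (Pi.single k 1)) i
    rw [mulVec_single_one] at this
    exact this
  choose w hw using hw
  have hmat : ∀ X : Matrix B B ℂ, X * (P * Q) = P * Q * X → ∀ i,
      X *ᵥ (fun b => P b i) = ∑ k, (Q * X * P) k i • (fun b => P b k) := by
    intro X hX i
    have h1 : X * P = P * (Q * X * P) := by
      calc X * P = X * (P * Q) * P := by
            rw [Matrix.mul_assoc X, Matrix.mul_assoc P, hQP, Matrix.mul_one]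
        _ = P * (Q * X * P) := by
            rw [hX]
            simp only [Matrix.mul_assoc]
    funext b
    have h2 := congrFun (congrFun h1 b) i
    rw [Finset.sum_apply]
    refine Eq.trans h2 ?_
    rw [Matrix.mul_apply]
    refine Finset.sum_congr rfl fun k _ => ?_
    rw [Pi.smul_apply, smul_eq_mul, mul_comm]
  have hline : ∀ (X : Matrix B B ℂ) (c : ℂ) (j : Fin r), X * E j = c • E j →
      X *ᵥ (E j *ᵥ w j) = c • (E j *ᵥ w j) := by
    intro X c j h
    rw [mulVec_mulVec, h, smul_mulVec]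
  have hP : LinearIndependent ℂ fun (k : Fin d) (b : B) => P b k := by
    rw [Fintype.linearIndependent_iff]
    intro c hc i
    have h1 : P *ᵥ c = 0 := by
      rw [← hc]
      funext b
      simp only [Matrix.mulVec, dotProduct, Finset.sum_apply, Pi.smul_apply, smul_eq_mul]
      exact Finset.sum_congr rfl fun k _ => mul_comm _ _
    have h2 : (Q * P) *ᵥ c = 0 := by rw [← mulVec_mulVec, h1, mulVec_zero]
    rw [hQP, one_mulVec] at h2
    exact congrFun h2 i
  have hx0 : dR (fun (k : Fin d) (b : B) => P b k) (fun j => E j *ᵥ w j) ≠ 0 := dR_ne hP hw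
  have htr : ∀ X : Matrix B B ℂ, trace (Q * X * P) = trace (X * (P * Q)) := by
    intro X
    rw [Matrix.mul_assoc, trace_mul_comm, Matrix.mul_assoc]
  have hxL : dR (fun (k : Fin d) (b : B) => P b k) (fun j => E j *ᵥ w j) ∈
      InvL L (Fin d ⊕ Fin r) := by
    rw [mem_InvL]
    intro X hX
    have h1 : ∀ j, ∃ c : ℂ, X * E j = c • E j := fun j =>
      line_smul (hE j).1.2.1 (hE j).2 ((hE j).1.1 X hX)
    choose c hc using h1
    have h2 := dm_dR (hmat X (hcL X hX)) (fun j => hline X (c j) j (hc j))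
    rw [h2, htr]
    have h3 : ∀ j, trace (X * E j) = c j := by
      intro j
      rw [hc, trace_smul, (hE j).2, smul_eq_mul, mul_one]
    have h4 := hrel X hX
    rw [Finset.sum_congr rfl fun j _ => h3 j] at h4
    rw [h4, zero_smul]
  have h1 := GJ7.fixes ((finSumFinEquiv.trans (finCongr hdr)).symm) hn _ hxL
  rw [kp_dR (hmat _ hcu) (fun j => hline _ (b j) j (hb j))] at h1
  have h2 : (det (Q * mt u * P) * ∏ j, b j - 1) •
      dR (fun (k : Fin d) (b : B) => P b k) (fun j => E j *ᵥ w j) = 0 := by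
    rw [sub_smul, h1, one_smul, sub_self]
  have h3 := (smul_eq_zero.1 h2).resolve_right hx0
  have h4 : det (mt u * (P * Q) + 1 - P * Q) = det (Q * mt u * P) := by
    have h5 : mt u * (P * Q) + 1 - P * Q = 1 + P * ((Q * mt u * P - 1) * Q) := by
      have h6 : mt u * (P * Q) = P * (Q * mt u * P) * Q := by
        calc mt u * (P * Q) = mt u * (P * (Q * P) * Q) := by rw [hQP, Matrix.mul_one]
          _ = (mt u * (P * Q)) * (P * Q) := by simp only [Matrix.mul_assoc]
          _ = P * Q * mt u * (P * Q) := by rw [hcu]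
          _ = _ := by simp only [Matrix.mul_assoc]
      rw [h6, Matrix.sub_mul, Matrix.mul_sub, Matrix.one_mul]
      simp only [Matrix.mul_assoc]
      abel
    rw [h5, det_one_add_mul_comm, Matrix.mul_assoc, hQP, Matrix.mul_one]
    congr 1
    abel
  rw [h4]
  linear_combination h3

/-- The determinant relation of a module whose multiplicities are at most `m`. -/
theorem dl_bound (hO : IsOm Om) (hL : LD Om L) {Dm : (ℂ ≃+* ℂ) → Matrix B B ℂ} (hH : Hull L Dm)
    {u : USp Om} (h2 : ∀ x ∈ InvL L (Fin 2), kp (Fin 2) (mt u) *ᵥ x = x) {m : ℕ}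
    (hm : ∀ x ∈ InvL L (Fin (2 * m)), kp (Fin (2 * m)) (mt u) *ᵥ x = x) {e : Matrix B B ℂ}
    (he : Mi L e) {d : ℕ} (hd : trace e = d) (hpm : ∀ (σ : ℂ ≃+* ℂ) (p : ℕ),
      trace (Dm σ * e) = 2 * (p : ℂ) - d → p ≤ m ∧ d ≤ m + p) :
    ∃ (d' : ℕ) (F : Fin d' → Matrix B B ℂ) (b : Fin d' → ℂ),
      (∀ j, Li L (F j) ∧ mt u * F j = b j • F j) ∧
      (∀ X ∈ L, trace (X * e) + ∑ j, fc (F j) X = 0) ∧ det (mt u * e + 1 - e) * ∏ j, b j = 1 := by
  obtain ⟨heC, hee, heH, he0, heM⟩ := he
  have he : Mi L e := ⟨heC, hee, heH, he0, heM⟩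
  obtain ⟨G, hG⟩ := hH.one
  obtain ⟨hGM, hGt⟩ := hG
  have hGG : G * G = G := hGM.2.1
  -- the numbers p(σ)
  have hp : ∀ σ, ∃ p : ℕ, trace (Dm σ * e) = 2 * (p : ℂ) - d ∧ p ≤ d := fun σ =>
    inv_trace hee (hH.sq σ) (heC _ (hH.mem σ)) hd
  choose p hp1 hp2 using hp
  have hpm' : ∀ σ, p σ ≤ m ∧ d ≤ m + p σ := fun σ => hpm σ (p σ) (hp1 σ)
  have hd2 : d ≤ 2 * m := by
    have h1 := hpm' (RingEquiv.refl ℂ)
    omega
  -- the signs g(σ)
  have hg : ∀ σ, ∃ g : ℤ, (g = 1 ∨ g = -1) ∧ trace (Dm σ * G) = (g : ℂ) := by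
    intro σ
    obtain ⟨c, hc⟩ := line_smul hGG hGt (hGM.1 _ (hH.mem σ))
    have h1 : G = (c * c) • G := by
      have h2 : Dm σ * (Dm σ * G) = G := by rw [← mul_assoc, hH.sq, one_mul]
      rw [hc, Matrix.mul_smul, hc, smul_smul] at h2
      exact h2.symm
    have h2 := congrArg trace h1
    rw [trace_smul, hGt, smul_eq_mul, mul_one] at h2
    have h3 : trace (Dm σ * G) = c := by rw [hc, trace_smul, hGt, smul_eq_mul, mul_one]
    rcases mul_self_eq_one_iff.1 h2.symm with h | h
    · exact ⟨1, Or.inl rfl, by rw [h3, h]; simp⟩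
    · exact ⟨-1, Or.inr rfl, by rw [h3, h]; simp⟩
  choose g hg1 hg2 using hg
  have hpodd : ∀ σ, p (cj.trans σ) = d - p σ := by
    intro σ
    have h1 := hp1 (cj.trans σ)
    rw [hH.odd, neg_mul, trace_neg, hp1 σ] at h1
    have h2 : ((p (cj.trans σ) : ℕ) : ℂ) + p σ = d := by linear_combination (-1/2 : ℂ) * h1
    have h3 : p (cj.trans σ) + p σ = d := by exact_mod_cast h2
    omega
  have hgodd : ∀ σ, g (cj.trans σ) = -g σ := by
    intro σ
    have h1 := hg2 (cj.trans σ)
    rw [hH.odd, neg_mul, trace_neg, hg2 σ] at h1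
    exact_mod_cast h1.symm
  -- the number of lines is `2 m - d`
  let F : Fin (2 * m - d) → (ℂ ≃+* ℂ) → ℤ := fun j σ =>
    if g σ = 1 then (if (j : ℕ) < m + p σ - d then -1 else 1)
    else (if (j : ℕ) < m - p σ then 1 else -1)
  have hF1 : ∀ j σ, F j σ = 1 ∨ F j σ = -1 := by
    intro j σ
    simp only [F]
    split_ifs <;> simp
  have hFodd : ∀ j σ, F j (cj.trans σ) = -F j σ := by
    intro j σ
    simp only [F]
    rw [hpodd, hgodd]
    have h0 := hpm' σ
    have h0' := hp2 σ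
    have h1 : m + (d - p σ) - d = m - p σ := by omega
    have h1' : m - (d - p σ) = m + p σ - d := by omega
    rw [h1, h1']
    rcases hg1 σ with h | h
    · rw [h]
      norm_num
      split_ifs <;> rfl
    · rw [h]
      norm_num
      split_ifs <;> rfl
  have hFt : ∀ j σ τ, (∀ e, Mi L e → trace (Dm σ * e) = trace (Dm τ * e)) → F j σ = F j τ := by
    intro j σ τ h
    have h1 := h e he
    rw [hp1, hp1] at h1
    have h2 : ((p σ : ℕ) : ℂ) = p τ := by linear_combination (1/2 : ℂ) * h1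
    have h3 : p σ = p τ := by exact_mod_cast h2
    have h4 := h G hGM
    rw [hg2, hg2] at h4
    have h5 : g σ = g τ := by exact_mod_cast h4
    simp only [F]
    rw [h3, h5]
  have hFsum : ∀ σ, ∑ j, F j σ = d - 2 * p σ := by
    intro σ
    simp only [F]
    have h0 := hpm' σ
    have h0' := hp2 σ
    rcases hg1 σ with h | h
    · simp only [h, if_true]
      rw [sum_sign' (m + p σ - d) (2 * m - d) (by omega)]
      omega
    · have h1 := sum_sign' (m - p σ) (2 * m - d) (by omega)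
      have h2 : ∀ j : Fin (2 * m - d), (if g σ = 1 then
          (if (j : ℕ) < m + p σ - d then (-1 : ℤ) else 1)
          else (if (j : ℕ) < m - p σ then 1 else -1)) =
          -(if (j : ℕ) < m - p σ then (-1 : ℤ) else 1) := by
        intro j
        rw [h]
        norm_num
        split_ifs <;> rfl
      rw [Finset.sum_congr rfl fun j _ => h2 j, Finset.sum_neg_distrib, h1]
      omega
  have hE := fun j => hH.hull (F j) (hF1 j) (hFodd j) (hFt j)
  choose E hE1 hE2 using hE
  -- the relation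
  have hrel : ∀ X ∈ L, trace (X * e) + ∑ j, trace (X * E j) = 0 := by
    let M : Submodule ℂ (Matrix B B ℂ) :=
      { carrier := {X | X ∈ L ∧ trace (X * e) + ∑ j, trace (X * E j) = 0}
        add_mem' := by
          rintro X Y ⟨h1, h2⟩ ⟨h3, h4⟩
          refine ⟨L.add_mem h1 h3, ?_⟩
          simp only [add_mul, trace_add, Finset.sum_add_distrib]
          linear_combination h2 + h4
        zero_mem' := by
          refine ⟨L.zero_mem, ?_⟩
          simp
        smul_mem' := by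
          rintro c X ⟨h1, h2⟩
          refine ⟨L.smul_mem _ h1, ?_⟩
          simp only [Matrix.smul_mul, trace_smul, smul_eq_mul, ← Finset.mul_sum]
          linear_combination c * h2 }
    have hM : L ≤ M := by
      refine hH.gen M ?_ ?_
      · intro σ
        refine ⟨hH.mem σ, ?_⟩
        have h1 : ∀ j, trace (Dm σ * E j) = (F j σ : ℂ) := by
          intro j
          rw [hE2, trace_smul, (hE1 j).2, smul_eq_mul, mul_one]
        rw [Finset.sum_congr rfl fun j _ => h1 j, hp1]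
        have h2 : ((∑ j, F j σ : ℤ) : ℂ) = ((d - 2 * p σ : ℤ) : ℂ) := by rw [hFsum]
        push_cast at h2
        rw [h2]
        ring
      · rintro X ⟨hX, -⟩ Y ⟨hY, -⟩
        refine ⟨hL.br X hX Y hY, ?_⟩
        have h1 : ∀ N ∈ CM L, trace ((X * Y - Y * X) * N) = 0 := by
          intro N hN
          rw [sub_mul, trace_sub, mul_assoc, mul_assoc Y X N, hN X hX, ← mul_assoc Y N X,
            trace_mul_comm (Y * N) X, sub_self]
        rw [h1 e heC, Finset.sum_congr rfl fun j _ => h1 (E j) (hE1 j).1.1]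
        simp
    exact fun X hX => (hM hX).2
  have hvE : ∀ j, ∃ b : ℂ, mt u * E j = b • E j := fun j =>
    line_smul (hE1 j).1.2.1 (hE1 j).2 (comm_of_f2 hO hL h2 (hE1 j).1.1)
  choose b hb using hvE
  refine ⟨2 * m - d, E, b, fun j => ⟨hE1 j, hb j⟩, ?_, ?_⟩
  · intro X hX
    have h2 : ∀ j, fc (E j) X = trace (X * E j) := by
      intro j
      unfold fc
      rw [(hE1 j).2, div_one]
    rw [Finset.sum_congr rfl fun j _ => h2 j]
    exact hrel X hX
  · obtain ⟨r', P, Q, hPQ, hQP⟩ := idem_fac hee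
    have hr' : r' = d := by
      have h1 : trace e = r' := by
        rw [← hPQ, trace_mul_comm, hQP, trace_one, Fintype.card_fin]
      rw [hd] at h1
      exact_mod_cast h1.symm
    subst hr'
    have h3 := rel_tensor (Om := Om) (L := L) (u := u) (n := 2 * m) hm (d := r') (r := 2 * m - r')
      (by omega) (P := P) (Q := Q) hQP (by rw [hPQ]; exact heC) (by
        rw [hPQ]
        exact comm_of_f2 hO hL h2 heC) hE1 hb (by rw [hPQ]; exact hrel)
    rwa [hPQ] at h3

end

end Pool.Agent.H17.Bn
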