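import Mathlib
import Pool.Graph.R_pool_sql_team_seeded_3dad9d7b.NH32.GD14

/-!
# The classes of lower degree
-/

set_option linter.unusedSectionVars false

namespace Pool.Agent.H17.Bn

open Matrix Module Pool.Agent.NH32 Pool.Agent.W437.HC Pool.Agent.W437.HD Pool.Agent.TH504.CB
  Pool.Agent.Y90 Pool.Agent.NH32.GJ14 Pool.Agent.NH32.GD14
open Pool.Agent.H204R3.CM (IsHodge)
open Pool.Agent.W548.Odd hiding cv

noncomputable section

/-- The classes of degree `n` come from those of degree `n + 2`. -/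
theorem deg_down (𝒜 : Sys) {n : ℕ}
    (h4 : ∀ (Y : AV) (f : Y.H [⋀^Fin (n + 2)]→ₗ[ℚ] ℚ), IsHodge Y.per f → 𝒜.A Y (Fin (n + 2)) f)
    (X : AV) (f : X.H [⋀^Fin n]→ₗ[ℚ] ℚ) (hf : IsHodge X.per f) : 𝒜.A X (Fin n) f := by
  have h1 : IsHodge (prodAV X ell).per (f.compLinearMap (prX X ell)) := by
    obtain ⟨Ψ, hΨ⟩ := prX_hom X ell
    exact isHodge_comp _ Ψ hΨ hf
  have h2 : IsHodge (prodAV X ell).per (thE.compLinearMap (prY X ell)) := by
    obtain ⟨Ψ, hΨ⟩ := prY_hom X ell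
    exact isHodge_comp _ Ψ hΨ thE_hodge
  have h3 := cupQ_hodge h1 h2
  obtain ⟨c, hc, hc2⟩ := cup_val (f.compLinearMap (prX X ell)) (thE.compLinearMap (prY X ell))
  generalize hF : cupQ (f.compLinearMap (prX X ell)) (thE.compLinearMap (prY X ell)) = F at h3 hc2
  have h5 := h4 _ _ (isHodge_reindex (finSumFinEquiv : Fin n ⊕ Fin 2 ≃ Fin (n + 2)) h3)
  have h6 := 𝒜.reindex (finSumFinEquiv : Fin n ⊕ Fin 2 ≃ Fin (n + 2)).symm _ h5
  have h7 : (F.domDomCongr (finSumFinEquiv : Fin n ⊕ Fin 2 ≃ Fin (n + 2))).domDomCongr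
      (finSumFinEquiv : Fin n ⊕ Fin 2 ≃ Fin (n + 2)).symm = F := by
    ext v
    rw [AlternatingMap.domDomCongr_apply, AlternatingMap.domDomCongr_apply]
    congr 1
    funext k
    simp
  rw [h7] at h6
  have h8 : 𝒜.A X (Fin n) (c • f) := by
    refine 𝒜.push (inX X ell) (inY X ell) (isProd X ell) bE F h6 _ fun v => ?_
    rw [hc2, AlternatingMap.smul_apply, smul_eq_mul]
    · have e1 : (f.compLinearMap (prX X ell)) (fun k => Sum.elim (fun k => inX X ell (v k))
          (fun k => inY X ell (bE k)) (Sum.inl k)) = f v := by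
        rw [AlternatingMap.compLinearMap_apply]
        rfl
      have e2 : (thE.compLinearMap (prY X ell)) (fun k => Sum.elim (fun k => inX X ell (v k))
          (fun k => inY X ell (bE k)) (Sum.inr k)) = 1 := by
        rw [AlternatingMap.compLinearMap_apply]
        exact bE.det_self
      rw [e1, e2, mul_one]
    · rintro w ⟨k, l, hw⟩
      rw [AlternatingMap.compLinearMap_apply]
      refine f.map_coord_zero k ?_
      rw [hw]
      rfl
  have h9 := 𝒜.smul c⁻¹ _ h8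
  rwa [smul_smul, inv_mul_cancel₀ hc, one_smul] at h9

/-- The classes of degree `2 k` come from those of degree `2 m`, `k ≤ m`. -/
theorem deg_le (𝒜 : Sys) {m : ℕ}
    (h : ∀ (Y : AV) (f : Y.H [⋀^Fin (2 * m)]→ₗ[ℚ] ℚ), IsHodge Y.per f → 𝒜.A Y (Fin (2 * m)) f)
    (j : ℕ) (X : AV) : ∀ k, k + j = m → ∀ (f : X.H [⋀^Fin (2 * k)]→ₗ[ℚ] ℚ),
      IsHodge X.per f → 𝒜.A X (Fin (2 * k)) f := by
  induction j generalizing X with
  | zero =>
    intro k hk f hf
    obtain rfl : k = m := by omega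
    exact h X f hf
  | succ j ih =>
    intro k hk
    exact deg_down 𝒜 (fun Y f hf => ih Y (k + 1) (by omega) f hf) X

end

end Pool.Agent.H17.Bn
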