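import Mathlib
import Pool.Agent.H17.Bn.AvB
import Pool.Agent.H17.Bn.Det
import Pool.Agent.H17.Bn.Low
import Pool.Graph.R_pool_sql_team_seeded_3dad9d7b.NH32.GpA
import Pool.Graph.R_pool_sql_team_seeded_3dad9d7b.NH32.GD1

/-!
# Bounded codimension: the main theorem
-/

set_option linter.unusedSectionVars false

namespace Pool.Agent.H17.Bn

open Matrix Module Pool.Agent.NH32 Pool.Agent.W437.HC Pool.Agent.W437.HD Pool.Agent.TH504.CB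
  Pool.Agent.Y90
open Pool.Agent.H204R3.CM (IsHodge)
open Pool.Agent.W548.Odd hiding cv

noncomputable section

variable {g : ℕ} {Z : Matrix (Fin g) (Fin g) ℂ} {X : AV} {e : X.H ≃ₗ[ℚ] (Fin g ⊕ Fin g → ℚ)}
  {y yi : Matrix (Fin g ⊕ Fin g) (Fin g ⊕ Fin g) ℝ}

/-- The relations in an abelian variety with bounded multiplicities. -/
theorem fixS_bd {m : ℕ} (hX : AB m X) (hH : HullAV X) (hZ : PM Z)
    (hc : Cht (X.per.comp e.symm.toLinearMap.toAddMonoidHom) (JR Z)) (hy : YD Z y yi) (𝒜 : Sys)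
    (h2 : ∀ (Y : AV) (f : Y.H [⋀^Fin 2]→ₗ[ℚ] ℚ), IsHodge Y.per f → 𝒜.A Y (Fin 2) f)
    (h4 : ∀ (Y : AV) (f : Y.H [⋀^Fin 4]→ₗ[ℚ] ℚ), IsHodge Y.per f → 𝒜.A Y (Fin 4) f)
    (hm : ∀ (Y : AV) (f : Y.H [⋀^Fin (2 * m)]→ₗ[ℚ] ℚ), IsHodge Y.per f → 𝒜.A Y (Fin (2 * m)) f)
    {u : USp (Oy yi)} (hu : u ∈ Fx (Oy yi) (TY e 𝒜 Z y yi)) :
    FixS (Oy yi) (Ly Z y yi) u := by
  have hO := hy.isOm hZ.det
  have hL := hy.ld hZ
  have hf2 := GJ18.fix_deg h2 hc hy hu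
  have hHL := Gm.hull_ly (mi_of coo_of) hZ hc hy hH
  refine ⟨hf2, GJ18.fix_deg h4 hc hy hu, fun ε hε => ?_⟩
  obtain ⟨d, P, Q, hPQ, hQP, hI, hR⟩ := (mi_of coo_of g Z X e y yi hZ hc hy).1 ε hε
  have hB := hX d _ hI hR
  have hd : trace ε = d := by
    rw [← hPQ, trace_mul_comm, hQP, trace_one, Fintype.card_fin]
  have htr : ∀ σ, trace (Dy Z y yi σ * ε) = trace (Q * Dy Z y yi σ * P) := by
    intro σ
    rw [← hPQ, ← Matrix.mul_assoc, trace_mul_comm, ← Matrix.mul_assoc]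
  have hsq : ∀ σ, Q * Dy Z y yi σ * P * (Q * Dy Z y yi σ * P) = 1 := by
    intro σ
    have hcm : Dy Z y yi σ * (P * Q) = P * Q * Dy Z y yi σ := by
      rw [hPQ]
      exact hε.1 _ (GJ17.Dy_mem hy σ)
    calc Q * Dy Z y yi σ * P * (Q * Dy Z y yi σ * P)
        = Q * (Dy Z y yi σ * (P * Q)) * (Dy Z y yi σ * P) := by simp only [Matrix.mul_assoc]
      _ = (Q * P) * Q * (Dy Z y yi σ * Dy Z y yi σ) * P := by
          rw [hcm]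
          simp only [Matrix.mul_assoc]
      _ = 1 := by rw [Gm.Dy_sq hZ hy, hQP, Matrix.one_mul, Matrix.mul_one, hQP]
  exact dl_bound hO hL hHL hf2 (GJ18.fix_deg hm hc hy hu) hε hd fun σ p hp =>
    hB.num hsq σ ((htr σ).symm.trans hp)

/-- The main theorem for abelian varieties in a large hull. -/
theorem mainAV_bd {m : ℕ} (hXB : AB m X) (hX : Hul2 X) (𝒜 : Sys)
    (h2 : ∀ (Y : AV) (f : Y.H [⋀^Fin 2]→ₗ[ℚ] ℚ), IsHodge Y.per f → 𝒜.A Y (Fin 2) f)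
    (h4 : ∀ (Y : AV) (f : Y.H [⋀^Fin 4]→ₗ[ℚ] ℚ), IsHodge Y.per f → 𝒜.A Y (Fin 4) f)
    (hm : ∀ (Y : AV) (f : Y.H [⋀^Fin (2 * m)]→ₗ[ℚ] ℚ), IsHodge Y.per f → 𝒜.A Y (Fin (2 * m)) f)
    (P : AV) (n : ℕ) (hP : IsPower X P n) : 𝒜.AllHodge P := by
  obtain ⟨E, hE⟩ := X.pol
  obtain ⟨g, Z, hZ, e, hc, -⟩ := exists_ppavE X.span X.rank hE
  obtain ⟨y, yi, hy⟩ := exists_YD hZ
  obtain ⟨i, hP⟩ := hP
  refine allHodge_iso 𝒜 (isoP hP) (isoP_hom hP) ?_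
  have hO := hy.isOm hZ.det
  have hld := hy.ld hZ
  have hH := Gm.hull_ly (mi_of coo_of) hZ hc hy hX.1
  have hfix : ∀ u ∈ Fx (Oy yi) (TY e 𝒜 Z y yi), ∀ (κ : Type) [Fintype κ] [DecidableEq κ],
      ∀ x ∈ InvL (Ly Z y yi) κ, kp κ (mt u) *ᵥ x = x := by
    intro u hu κ _ _
    exact Gm.mainL Gm.hyp hO hld hH (br_of coo_of (mi_of coo_of) g Z X e y yi hZ hc hy hX)
      (Gp.fixU lin_of hO hld hH (fixS_bd hXB hX.1 hZ hc hy 𝒜 h2 h4 hm hu)) κ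
  have hT := tan_div hZ h2 hc hy
  refine allHodge_of hc fun κ _ _ c hcH => ?_
  have h14 : kp κ (cm y)ᵀ *ᵥ (kp κ (cm yi)ᵀ *ᵥ cst ℂ c) = cst ℂ c := by
    rw [mulVec_mulVec, ← kp_mul, hy.clT, kp_one, one_mulVec]
  have h15 : kp κ (cm yi)ᵀ *ᵥ cst ℂ c ∈ InvL (Ly Z y yi) κ := by
    refine hy.inv_from ?_
    rw [h14]
    exact inv_of_isH hcH
  have h16 := (mem_TY.1 (tannaka hT hO _ fun u hu => hfix u hu κ _ h15)).1
  rwa [h14] at h16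

/-- **The main theorem**, for abelian varieties with bounded multiplicities. -/
theorem main_bd {m : ℕ} (hm2 : 2 ≤ m) (𝒜 : Sys)
    (hm : ∀ (Y : AV) (f : Y.H [⋀^Fin (2 * m)]→ₗ[ℚ] ℚ), IsHodge Y.per f → 𝒜.A Y (Fin (2 * m)) f)
    (A : AV) (hA : AB m A) : 𝒜.AllHodge A := by
  have h2 : ∀ (Y : AV) (f : Y.H [⋀^Fin 2]→ₗ[ℚ] ℚ), IsHodge Y.per f → 𝒜.A Y (Fin 2) f :=
    fun Y f hf => deg_le 𝒜 hm (m - 1) Y 1 (by omega) f hf
  have h4 : ∀ (Y : AV) (f : Y.H [⋀^Fin 4]→ₗ[ℚ] ℚ), IsHodge Y.per f → 𝒜.A Y (Fin 4) f :=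
    fun Y f hf => deg_le 𝒜 hm (m - 2) Y 2 (by omega) f hf
  obtain ⟨X, hXB, hF, hX⟩ := hul2_bd (show 1 ≤ m by omega) (ex_of ej_of pd_of gdm_of)
    (df_of coo_of (mi_of coo_of)) spr_of lalg_of (r2a_of spr_of lalg_of) fam_of dtc_of unit_of
    typ_of fin_of pr_of fac_of (hull_of cm_of (fld_of coo_of) pr_of fac_of) A hA
  refine fac_of.2.2 𝒜 A X hF (fun P n hP => mainAV_bd hXB hX 𝒜 h2 h4 hm P n hP) A 1 ?_
  refine ⟨fun _ => LinearMap.id, fun _ => ⟨LinearMap.id, fun _ => rfl⟩, ?_⟩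
  constructor
  · intro v w h
    simp only [Fin.sum_univ_one, LinearMap.id_coe, id_eq] at h
    funext k
    rw [Subsingleton.elim k 0]
    exact h
  · intro w
    exact ⟨fun _ => w, by simp⟩

/-- **Bounded codimension.** -/
theorem main_rel {m : ℕ} (hm2 : 2 ≤ m) (𝒜 : Sys)
    (hm : ∀ (Y : AV) (f : Y.H [⋀^Fin (2 * m)]→ₗ[ℚ] ℚ), IsHodge Y.per f → 𝒜.A Y (Fin (2 * m)) f)
    (A : AV) {ι : Type} (B : ι → AV) (i : ∀ k, (B k).H →ₗ[ℚ] A.H)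
    (hi : ∀ k, IsHom (B k) A (i k)) (hg : ⨆ k, LinearMap.range (i k) = ⊤)
    (hB : ∀ k, RelDim m (B k)) : 𝒜.AllHodge A :=
  main_bd hm2 𝒜 hm A (ab_gen B i hi hg fun k => ab_rel (hB k))

end

end Pool.Agent.H17.Bn
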