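import Mathlib
import Pool.Agent.H17.Bn.Main
import Pool.Agent.H17.Bn.AvM
import Pool.Graph.R_pool_sql_team_seeded_3dad9d7b.NH36.VC.Main

/-!
# The variational principle in one degree
-/

set_option linter.unusedSectionVars false

namespace Pool.Agent.H17.Bn

open Matrix Module Pool.Agent.NH32 Pool.Agent.W437.HC Pool.Agent.W437.HD Pool.Agent.TH504.CB
  Pool.Agent.Y90 Pool.Agent.NH32.GJ14 Pool.Agent.NH32.GD14
open Pool.Agent.H204R3.CM (IsHodge)
open Pool.Agent.W548.Odd hiding cv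

noncomputable section

/-- The product with the class of a point of the elliptic curve. -/
def upc {X : AV} {n : ℕ} (f : X.H [⋀^Fin n]→ₗ[ℚ] ℚ) : (prodAV X ell).H [⋀^Fin n ⊕ Fin 2]→ₗ[ℚ] ℚ :=
  cupQ (f.compLinearMap (prX X ell)) (thE.compLinearMap (prY X ell))

theorem upc_hodge {X : AV} {n : ℕ} {f : X.H [⋀^Fin n]→ₗ[ℚ] ℚ} (hf : IsHodge X.per f) :
    IsHodge (prodAV X ell).per (upc f) := by
  have h1 : IsHodge (prodAV X ell).per (f.compLinearMap (prX X ell)) := by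
    obtain ⟨Ψ, hΨ⟩ := prX_hom X ell
    exact isHodge_comp _ Ψ hΨ hf
  have h2 : IsHodge (prodAV X ell).per (thE.compLinearMap (prY X ell)) := by
    obtain ⟨Ψ, hΨ⟩ := prY_hom X ell
    exact isHodge_comp _ Ψ hΨ thE_hodge
  exact cupQ_hodge h1 h2

theorem upc_mem (𝒜 : Sys)
    (h2 : ∀ (X : AV) (f : X.H [⋀^Fin 2]→ₗ[ℚ] ℚ), IsHodge X.per f → 𝒜.A X (Fin 2) f)
    {X : AV} {n : ℕ} {f : X.H [⋀^Fin n]→ₗ[ℚ] ℚ} (hf : 𝒜.A X (Fin n) f) :
    𝒜.A (prodAV X ell) (Fin n ⊕ Fin 2) (upc f) :=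
  𝒜.cup _ _ (𝒜.pull _ (prX_hom X ell) f hf) (𝒜.pull _ (prY_hom X ell) thE (h2 _ _ thE_hodge)) _
    fun v => cupQ_apply _ _ v

theorem upc_push (𝒜 : Sys) {X : AV} {n : ℕ} {f : X.H [⋀^Fin n]→ₗ[ℚ] ℚ}
    (h : 𝒜.A (prodAV X ell) (Fin n ⊕ Fin 2) (upc f)) : 𝒜.A X (Fin n) f := by
  obtain ⟨c, hc, hc2⟩ := cup_val (f.compLinearMap (prX X ell)) (thE.compLinearMap (prY X ell))
  have h8 : 𝒜.A X (Fin n) (c • f) := by
    refine 𝒜.push (inX X ell) (inY X ell) (isProd X ell) bE (upc f) h _ fun v => ?_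
    unfold upc
    rw [hc2, AlternatingMap.smul_apply, smul_eq_mul]
    · have e1 : (f.compLinearMap (prX X ell)) (fun k => Sum.elim (fun k => inX X ell (v k))
          (fun k => inY X ell (bE k)) (Sum.inl k)) = f v := by
        rw [AlternatingMap.compLinearMap_apply]
        rfl
      have e2 : (thE.compLinearMap (prY X ell)) (fun k => Sum.elim (fun k => inX X ell (v k))
          (fun k => inY X ell (bE k)) (Sum.inr k)) = 1 := by
        rw [AlternatingMap.compLinearMap_apply]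
        exact bE.det_self
      rw [e1, e2, mul_one]
    · rintro w ⟨k, l, hw⟩
      rw [AlternatingMap.compLinearMap_apply]
      refine f.map_coord_zero k ?_
      rw [hw]
      rfl
  have h9 := 𝒜.smul c⁻¹ _ h8
  rwa [smul_smul, inv_mul_cancel₀ hc, one_smul] at h9

theorem rix {V : Type} [AddCommGroup V] [Module ℚ V] {κ κ' : Type} (e : κ ≃ κ')
    (F : V [⋀^κ]→ₗ[ℚ] ℚ) : (F.domDomCongr e).domDomCongr e.symm = F := by
  ext v
  rw [AlternatingMap.domDomCongr_apply, AlternatingMap.domDomCongr_apply]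
  congr 1
  funext k
  simp

/-- **The variational principle in degree `n` follows from that in degree `n + 2`.** -/
theorem var_down (𝒜 : Sys)
    (h2 : ∀ (X : AV) (f : X.H [⋀^Fin 2]→ₗ[ℚ] ℚ), IsHodge X.per f → 𝒜.A X (Fin 2) f) {n : ℕ}
    (hv : NH36.VH.Variational 𝒜 (n + 2)) : NH36.VH.Variational 𝒜 n := by
  intro X X' e E hE hE' f hf hf' hA
  obtain ⟨F, hF⟩ := ell.pol
  let ee : (prodAV X ell).H ≃ₗ[ℚ] (prodAV X' ell).H := LinearEquiv.prodCongr e (LinearEquiv.refl ℚ _)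
  have hee : ∀ v, ee v = (e v.1, v.2) := fun _ => rfl
  have hcomp : (upc f).compLinearMap ee.toLinearMap = upc (f.compLinearMap e.toLinearMap) := by
    ext v
    rw [AlternatingMap.compLinearMap_apply]
    unfold upc
    rw [cupQ_apply, cupQ_apply]
    rfl
  have hd : ((upc f).domDomCongr (finSumFinEquiv : Fin n ⊕ Fin 2 ≃ Fin (n + 2))).compLinearMap
      ee.toLinearMap = ((upc (f.compLinearMap e.toLinearMap)).domDomCongr
        (finSumFinEquiv : Fin n ⊕ Fin 2 ≃ Fin (n + 2))) := by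
    rw [← hcomp]
    rfl
  have h5 := hv (prodAV X ell) (prodAV X' ell) ee (fun v w => E v.1 w.1 + F v.2 w.2)
    (polP hE hF) (polP hE' hF)
    ((upc f).domDomCongr (finSumFinEquiv : Fin n ⊕ Fin 2 ≃ Fin (n + 2)))
    (isHodge_reindex _ (upc_hodge hf))
    (by
      rw [hd]
      exact isHodge_reindex _ (upc_hodge hf'))
    (by
      rw [hd]
      exact 𝒜.reindex _ _ (upc_mem 𝒜 h2 hA))
  have h6 := 𝒜.reindex (finSumFinEquiv : Fin n ⊕ Fin 2 ≃ Fin (n + 2)).symm _ h5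
  rw [rix] at h6
  exact upc_push 𝒜 h6

/-- The variational principle in degree four. -/
theorem var_four (𝒜 : Sys)
    (h2 : ∀ (X : AV) (f : X.H [⋀^Fin 2]→ₗ[ℚ] ℚ), IsHodge X.per f → 𝒜.A X (Fin 2) f) (j : ℕ) :
    NH36.VH.Variational 𝒜 (2 * (2 + j)) → NH36.VH.Variational 𝒜 4 := by
  induction j with
  | zero => exact fun h => h
  | succ j ih => exact fun h => ih (var_down 𝒜 h2 h)

end

end Pool.Agent.H17.Bn
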