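import Mathlib
import Pool.Agent.H17.Bn.Var

/-!
# Abelian varieties with a CM point
-/

set_option linter.unusedSectionVars false

namespace Pool.Agent.H17.Bn

open Matrix Module Pool.Agent.NH32 Pool.Agent.W437.HC Pool.Agent.W437.HD Pool.Agent.TH504.CB
  Pool.Agent.Y90 Pool.Agent.NH32.GK13 Pool.Agent.NH32.GJ14 Pool.Agent.NH32.GD14
open Pool.Agent.H204R3.CM (IsHodge)
open Pool.Agent.W548.Odd hiding cv

noncomputable section

/-- An equivariant map on which a homomorphism acts through a number. -/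
theorem eig_map {B : AV} {z : B.H →ₗ[ℚ] B.H} (hz : IsHom B B z) {d : ℕ}
    {Δ : (ℂ ≃+* ℂ) → Matrix (Fin d) (Fin d) ℂ} (hI : IrD Δ) (hR : Rz B d Δ) :
    ∃ (Ψ : (Fin d → ℂ) →ₗ[ℂ] (B.H →ₗ[ℚ] ℂ)) (lam : ℂ), Function.Injective Ψ ∧
      (∀ σ w, IsD B σ (Ψ w) (Ψ (Δ σ *ᵥ w))) ∧ ∀ w v, Ψ w (z v) = lam * Ψ w v := by
  obtain ⟨Φ, hΦ, hΦD⟩ := rz_iff.1 hR
  have hd := hI.1
  let M : Submodule ℂ ((Fin d → ℂ) →ₗ[ℂ] (B.H →ₗ[ℚ] ℂ)) :=
    { carrier := {Ψ | ∀ σ w, IsD B σ (Ψ w) (Ψ (Δ σ *ᵥ w))}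
      add_mem' := by
        intro a b ha hb σ w
        exact IsD_add (ha σ w) (hb σ w)
      zero_mem' := fun σ w => IsD_zero B σ
      smul_mem' := by
        intro c a ha σ w
        exact IsD_smul c (ha σ w) }
  have hM : ∀ Ψ, Ψ ∈ M ↔ ∀ σ w, IsD B σ (Ψ w) (Ψ (Δ σ *ᵥ w)) := fun _ => Iff.rfl
  have hΦ0 : Φ ≠ 0 := by
    intro h0
    have h1 : Φ (Pi.single ⟨0, hd⟩ 1) = Φ 0 := by rw [h0]; rfl
    have h2 := congrFun (hΦ h1) ⟨0, hd⟩
    rw [Pi.single_eq_same] at h2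
    exact one_ne_zero h2
  have hnt : Nontrivial M := ⟨⟨⟨Φ, (hM Φ).2 hΦD⟩, 0, fun h => hΦ0 (congrArg Subtype.val h)⟩⟩
  let T : Module.End ℂ M :=
    { toFun := fun Ψ => ⟨(cmpR z).comp Ψ.1, (hM _).2 fun σ w =>
        IsD_cmpR hz ((hM _).1 Ψ.2 σ w)⟩
      map_add' := by
        intro a b
        apply Subtype.ext
        exact LinearMap.comp_add _ _ _
      map_smul' := by
        intro c a
        apply Subtype.ext
        exact LinearMap.comp_smul _ _ _ }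
  obtain ⟨lam, hlam⟩ := Module.End.exists_eigenvalue (K := ℂ) (V := M) T
  obtain ⟨⟨Ψ, hΨM⟩, hΨ⟩ := hlam.exists_hasEigenvector
  have hΨ0 : Ψ ≠ 0 := fun h => hΨ.2 (Subtype.ext h)
  have hΨD := (hM Ψ).1 hΨM
  refine ⟨Ψ, lam, eqv_inj hI hΨ0 hΨD, hΨD, fun w v => ?_⟩
  have h1 := congrArg (fun x : M => x.1 w) hΨ.apply_eq_smul
  exact LinearMap.congr_fun h1 v

/-- The Hodge operator on the irreducible modules of a variety with a CM point. -/
theorem cmp_one {X : AV} {E : X.H → X.H → ℚ} {z : X.H →ₗ[ℚ] X.H} (hz : NH36.VH.CMp X E z) {d : ℕ}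
    {Δ : (ℂ ≃+* ℂ) → Matrix (Fin d) (Fin d) ℂ} (hI : IrD Δ) (hR : Rz X d Δ) :
    Δ (RingEquiv.refl ℂ) = 1 ∨ Δ (RingEquiv.refl ℂ) = -1 := by
  obtain ⟨Ψ, lam, hi, hD, he⟩ := eig_map hz.hom hI hR
  have hd := hI.1
  have h0 : ∀ w, w ≠ 0 → Ψ w ≠ 0 := fun w hw h => hw (hi (h.trans (map_zero Ψ).symm))
  have hB := fun w (hw : w ≠ 0) => NH36.VH.t_B0 X E z hz (Ψ w) lam (h0 w hw) (he w)
  let w₀ : Fin d → ℂ := Pi.single ⟨0, hd⟩ 1
  have hw₀ : w₀ ≠ 0 := by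
    intro h
    have h2 : (Pi.single ⟨0, hd⟩ 1 : Fin d → ℂ) ⟨0, hd⟩ = 0 := congrFun h ⟨0, hd⟩
    rw [Pi.single_eq_same] at h2
    exact one_ne_zero h2
  have hto : ∀ A : Matrix (Fin d) (Fin d) ℂ, (∀ w, A *ᵥ w = w) → A = 1 := by
    intro A hA
    ext i j
    have h1 := congrFun (hA (Pi.single j 1)) i
    rw [Matrix.mulVec_single_one] at h1
    rw [Matrix.one_apply]
    have h2 : A i j = (Pi.single j 1 : Fin d → ℂ) i := h1
    rw [h2, Pi.single_apply]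
  have e0 : ∀ a : X.H →ₗ[ℚ] ℂ, tw (RingEquiv.refl ℂ).symm a = a := by
    intro a
    ext w
    rfl
  rcases (hB w₀ hw₀).2 with ⟨hl, -⟩ | ⟨hl, -⟩
  · left
    apply hto
    intro w
    by_cases hw : w = 0
    · rw [hw, Matrix.mulVec_zero]
    have h1 : H10 X (Ψ w) := by
      rcases (hB w hw).2 with ⟨-, h⟩ | ⟨h, -⟩
      · exact h
      · exact absurd h (not_lt.2 hl.le)
    obtain ⟨a, b, h3, h4, h5, h6⟩ := hD (RingEquiv.refl ℂ) w
    rw [e0] at h5 h6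
    have h7 : H10 X (a - Ψ w) := by
      rw [sub_eq_add_neg]
      obtain ⟨l, hl1⟩ := h5
      obtain ⟨l', hl'⟩ := h1
      refine ⟨l - l', fun v => ?_⟩
      rw [LinearMap.add_apply, LinearMap.neg_apply, hl1, hl', LinearMap.sub_apply, sub_eq_add_neg]
    obtain ⟨-, h8⟩ := ind_01 h7 h6 (by rw [h3]; abel)
    apply hi
    rw [h4, h3, h8, sub_zero, add_zero]
  · right
    have h9 : -Δ (RingEquiv.refl ℂ) = 1 := by
      apply hto
      intro w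
      rw [Matrix.neg_mulVec]
      by_cases hw : w = 0
      · rw [hw, Matrix.mulVec_zero, neg_zero]
      have h1 : H10 X (tw cj (Ψ w)) := by
        rcases (hB w hw).2 with ⟨h, -⟩ | ⟨-, h⟩
        · exact absurd h (not_lt.2 hl.le)
        · exact h
      obtain ⟨a, b, h3, h4, h5, h6⟩ := hD (RingEquiv.refl ℂ) w
      rw [e0] at h5 h6
      have h7 : H10 X (tw cj (b - Ψ w)) := by
        obtain ⟨l, hl1⟩ := h6
        obtain ⟨l', hl'⟩ := h1
        refine ⟨l - l', fun v => ?_⟩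
        rw [LinearMap.sub_apply, ← hl1, ← hl']
        exact map_sub cj _ _
      obtain ⟨h8, -⟩ := ind_01 h5 h7 (by rw [h3]; abel)
      apply hi
      rw [map_neg, h4, h3, h8, zero_sub, zero_add, neg_neg]
    rw [← h9, neg_neg]

/-- Varieties with a CM point. -/
theorem cmp_ab {X : AV} {E : X.H → X.H → ℚ} {z : X.H →ₗ[ℚ] X.H} (hz : NH36.VH.CMp X E z) {m : ℕ}
    (hm : 1 ≤ m) : AB m X := by
  intro d Δ hI hR
  have key : ∀ σ, Δ σ = 1 ∨ Δ σ = -1 := by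
    intro σ
    have h3 : (RingEquiv.refl ℂ).trans σ.symm.symm = σ := by
      ext z
      rfl
    have h2 : Cjf Δ σ.symm (RingEquiv.refl ℂ) = (Δ σ).map σ.symm := by
      unfold Cjf
      rw [h3]
    have h4 : ((Δ σ).map σ.symm).map σ = Δ σ := by
      ext i j
      exact σ.apply_symm_apply _
    rcases cmp_one hz (cjf_ir hI σ.symm) (cjf_rz σ.symm hR) with h1 | h1
    · left
      rw [← h4, ← h2, h1, GK7.map_one']
    · right
      rw [← h4, ← h2, h1]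
      ext i j
      have h5 : (((-1 : Matrix (Fin d) (Fin d) ℂ)).map σ) i j =
          -(((1 : Matrix (Fin d) (Fin d) ℂ).map σ) i j) := map_neg σ _
      rw [h5, GK7.map_one']
      rfl
  have hd := hI.1
  have hd1 : d ≤ 1 := by
    rcases hI.2 (Submodule.span ℂ {(Pi.single ⟨0, hd⟩ 1 : Fin d → ℂ)}) (fun σ w hw => by
      rcases key σ with h | h
      · rwa [h, Matrix.one_mulVec]
      · rw [h, Matrix.neg_mulVec, Matrix.one_mulVec]
        exact Submodule.neg_mem _ hw) with h | h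
    · exfalso
      have h1 := Submodule.mem_span_singleton_self (R := ℂ) (Pi.single ⟨0, hd⟩ 1 : Fin d → ℂ)
      rw [h, Submodule.mem_bot] at h1
      have h2 := congrFun h1 ⟨0, hd⟩
      rw [Pi.single_eq_same] at h2
      exact one_ne_zero h2
    · have h1 := finrank_span_le_card (R := ℂ) ({(Pi.single ⟨0, hd⟩ 1 : Fin d → ℂ)} : Set (Fin d → ℂ))
      rw [h, finrank_top, Module.finrank_fin_fun] at h1
      simpa using h1
  intro σ
  exact ⟨(Matrix.rank_le_width _).trans (hd1.trans hm), (Matrix.rank_le_width _).trans (hd1.trans hm)⟩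

/-- **The variational principle in one degree gives all classes of this degree.** -/
theorem var_deg (𝒜 : Sys)
    (h2 : ∀ (X : AV) (f : X.H [⋀^Fin 2]→ₗ[ℚ] ℚ), IsHodge X.per f → 𝒜.A X (Fin 2) f) {m : ℕ}
    (hm : 2 ≤ m) (hv : NH36.VH.Variational 𝒜 (2 * m)) (X : AV) (f : X.H [⋀^Fin (2 * m)]→ₗ[ℚ] ℚ)
    (hf : IsHodge X.per f) : 𝒜.A X (Fin (2 * m)) f := by
  have h4 : NH36.VH.Variational 𝒜 4 := by
    obtain ⟨j, rfl⟩ := Nat.exists_eq_add_of_le hm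
    exact var_four 𝒜 h2 j hv
  have h5 : ∀ (Y : AV) (f : Y.H [⋀^Fin (2 * 2)]→ₗ[ℚ] ℚ), IsHodge Y.per f → 𝒜.A Y (Fin (2 * 2)) f :=
    (NH36.VC.main 𝒜 h2).1.1 h4
  obtain ⟨E, hE⟩ := X.pol
  obtain ⟨X', e, z, hz, hX⟩ := NH36.VH.cmp' X E hE (2 * m) f hf
  exact hv X' X e E hE hz.pol f hf hX
    (main_bd le_rfl 𝒜 h5 X' (cmp_ab hz one_le_two) (Fin (2 * m)) _ hX)

end

end Pool.Agent.H17.Bn
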